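import Pool.Agent.Work.MP_35a6f4_lc.Enum

/-!
Every context-free grammar has a code of polynomial size; the code of a finite language.
-/

namespace Pool.Agent.Work.MP_35a6f4_lc

open Symbol Pool.Agent.PT

/-- The size of a grammar: the total length of its productions. -/
def gsize {T : Type} (G : ContextFreeGrammar T) : ℕ := ∑ r ∈ G.rules, (r.output.length + 1)

/-- The nonterminals in a sentential form. -/
def nts {T N : Type} (l : List (Symbol T N)) : List N :=
  l.filterMap fun s => match s with | terminal _ => none | nonterminal A => some A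

lemma mem_nts {T N : Type} {l : List (Symbol T N)} {A : N} :
    A ∈ nts l ↔ nonterminal A ∈ l := by
  unfold nts
  rw [List.mem_filterMap]
  constructor
  · rintro ⟨s, hs, h⟩
    cases s with
    | terminal a => simp at h
    | nonterminal B =>
      simp only [Option.some.injEq] at h
      rw [← h]; exact hs
  · intro h
    exact ⟨_, h, rfl⟩

/-- Numbers of symbols. -/
def symc {N : Type} (k : ℕ) (f : N → ℕ) : Symbol (Fin k) N → ℕ
  | terminal a => (a : ℕ)
  | nonterminal A => f A + k

lemma sym_symc {N : Type} (k : ℕ) (f : N → ℕ) (s : Symbol (Fin k) N) :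
    sym k (symc k f s) = mapSym f s := by
  cases s with
  | terminal a =>
    show sym k (a : ℕ) = terminal a
    unfold sym
    rw [dif_pos a.2]
  | nonterminal A =>
    show sym k (f A + k) = nonterminal (f A)
    unfold sym
    rw [dif_neg (by omega), Nat.add_sub_cancel]

section
variable {k : ℕ} (G : ContextFreeGrammar (Fin k))

/-- The list of the relevant nonterminals. -/
noncomputable def ntl : List G.NT :=
  G.initial :: G.rules.toList.flatMap fun r => r.input :: nts r.output

lemma ntl_length : (ntl G).length ≤ gsize G + 1 := by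
  unfold ntl gsize
  rw [List.length_cons, List.length_flatMap, Finset.sum_eq_multiset_sum]
  apply Nat.succ_le_succ
  have h1 : (Multiset.map (fun r : ContextFreeRule (Fin k) G.NT => r.output.length + 1)
      G.rules.val).sum = (G.rules.toList.map fun r => r.output.length + 1).sum := by
    rw [← Finset.coe_toList, Multiset.map_coe, Multiset.sum_coe]
  rw [h1]
  refine List.sum_le_sum fun r _ => ?_
  rw [List.length_cons]
  exact Nat.succ_le_succ (List.length_filterMap_le _ _)

open Classical in
/-- The numbering of the nonterminals. -/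
noncomputable def nf (A : G.NT) : ℕ := (ntl G).idxOf A

/-- The code of a grammar. -/
noncomputable def codeOf : List (ℕ × List ℕ) :=
  G.rules.toList.map fun r => (nf G r.input, r.output.map (symc k (nf G)))

lemma nf_initial : nf G G.initial = 0 := by
  classical
  unfold nf ntl
  exact List.idxOf_cons_self

lemma nf_le (A : G.NT) : nf G A ≤ gsize G + 1 := by
  classical
  unfold nf
  exact List.idxOf_le_length.trans (ntl_length G)

lemma nf_inj : Set.InjOn (nf G) {A | A ∈ ntl G} := by
  classical
  intro A hA B _ h
  unfold nf at h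
  exact (List.idxOf_inj hA).1 h

lemma input_mem {r : ContextFreeRule (Fin k) G.NT} (hr : r ∈ G.rules) : r.input ∈ ntl G := by
  unfold ntl
  apply List.mem_cons_of_mem
  rw [List.mem_flatMap]
  exact ⟨r, Finset.mem_toList.2 hr, List.mem_cons_self⟩

lemma output_mem {r : ContextFreeRule (Fin k) G.NT} (hr : r ∈ G.rules) {A : G.NT}
    (hA : nonterminal A ∈ r.output) : A ∈ ntl G := by
  unfold ntl
  apply List.mem_cons_of_mem
  rw [List.mem_flatMap]
  exact ⟨r, Finset.mem_toList.2 hr, List.mem_cons_of_mem _ (mem_nts.2 hA)⟩

lemma map_sym (l : List (Symbol (Fin k) G.NT)) :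
    (l.map (symc k (nf G))).map (sym k) = l.map (mapSym (nf G)) := by
  rw [List.map_map]
  exact List.map_congr_left fun s _ => sym_symc k (nf G) s

theorem language_codeOf : (toCFG k (codeOf G)).language = G.language := by
  ext w
  rw [mem_language_iff_derG, mem_language_iff_derG]
  have h0 : ([nonterminal (toCFG k (codeOf G)).initial] :
      List (Symbol (Fin k) (toCFG k (codeOf G)).NT)) =
      ([nonterminal G.initial] : List (Symbol (Fin k) G.NT)).map
        (mapSym (N' := (toCFG k (codeOf G)).NT) (nf G)) := by
    show [nonterminal (0 : ℕ)] = [nonterminal (nf G G.initial)]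
    rw [nf_initial]
  constructor
  · intro h
    refine DerG.unmap (H := toCFG k (codeOf G)) (nf G) {A | A ∈ ntl G} (nf_inj G) ?_ h
      [nonterminal G.initial] ?_ h0
    · intro r' hr'
      obtain ⟨a, ha, rfl⟩ := mem_rules.1 hr'
      unfold codeOf at ha
      rw [List.mem_map] at ha
      obtain ⟨r, hr, rfl⟩ := ha
      rw [Finset.mem_toList] at hr
      refine ⟨r, hr, input_mem G hr, fun A hA => output_mem G hr hA, ?_⟩
      show (⟨nf G r.input, (r.output.map (symc k (nf G))).map (sym k)⟩ :
        ContextFreeRule (Fin k) ℕ) = ⟨nf G r.input, r.output.map (mapSym (nf G))⟩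
      rw [map_sym]
    · intro A hA
      rw [List.mem_singleton, nonterminal.injEq] at hA
      rw [hA]
      exact List.mem_cons_self
  · intro h
    rw [h0]
    refine DerG.map (H := toCFG k (codeOf G)) (nf G) ?_ h
    intro r hr
    apply mem_rules.2
    refine ⟨(nf G r.input, r.output.map (symc k (nf G))), ?_, ?_⟩
    · unfold codeOf
      rw [List.mem_map]
      exact ⟨r, Finset.mem_toList.2 hr, rfl⟩
    · show (⟨nf G r.input, r.output.map (mapSym (nf G))⟩ : ContextFreeRule (Fin k) ℕ) =
        ⟨nf G r.input, (r.output.map (symc k (nf G))).map (sym k)⟩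
      rw [map_sym]

lemma sz_list_le {α : Type} [Enc α] (l : List α) (c : ℕ) (h : ∀ a ∈ l, sz a + 1 ≤ c) :
    sz l ≤ l.length * c + 1 := by
  induction l with
  | nil => simp [sz_nil]
  | cons a l ih =>
    rw [sz_cons, List.length_cons, Nat.succ_mul]
    have h1 := h a List.mem_cons_self
    have h2 := ih fun b hb => h b (List.mem_cons_of_mem _ hb)
    omega

lemma sz_list_sum {α : Type} [Enc α] (l : List α) (f : α → ℕ) (h : ∀ a ∈ l, sz a + 1 ≤ f a) :
    sz l ≤ (l.map f).sum + 1 := by
  induction l with
  | nil => simp [sz_nil]
  | cons a l ih =>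
    rw [sz_cons, List.map_cons, List.sum_cons]
    have h1 := h a List.mem_cons_self
    have h2 := ih fun b hb => h b (List.mem_cons_of_mem _ hb)
    omega

theorem sz_codeOf : sz (codeOf G) ≤ gsize G * (2 * (gsize G + 1 + k) + 4) + 1 := by
  have h1 := sz_list_sum (codeOf G) (fun a => (a.2.length + 1) * (2 * (gsize G + 1 + k) + 4)) ?_
  · refine h1.trans (Nat.succ_le_succ (le_of_eq ?_))
    unfold codeOf
    rw [List.map_map]
    have h2 : ((fun a : ℕ × List ℕ => (a.2.length + 1) * (2 * (gsize G + 1 + k) + 4)) ∘
        fun r : ContextFreeRule (Fin k) G.NT => (nf G r.input, r.output.map (symc k (nf G)))) =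
        fun r => (r.output.length + 1) * (2 * (gsize G + 1 + k) + 4) := by
      funext r
      simp
    rw [h2, List.sum_map_mul_right]
    congr 1
    unfold gsize
    rw [Finset.sum_eq_multiset_sum, ← Finset.coe_toList, Multiset.map_coe, Multiset.sum_coe]
  · intro a ha
    unfold codeOf at ha
    rw [List.mem_map] at ha
    obtain ⟨r, hr, rfl⟩ := ha
    rw [sz_pair, sz_nat]
    have h3 := nf_le G r.input
    have h4 := sz_list_le (r.output.map (symc k (nf G))) (2 * (gsize G + 1 + k) + 2) (by
      intro s hs
      rw [List.mem_map] at hs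
      obtain ⟨s', _, rfl⟩ := hs
      rw [sz_nat]
      have : symc k (nf G) s' ≤ gsize G + 1 + k := by
        cases s' with
        | terminal a =>
          show (a : ℕ) ≤ _
          have := a.2
          omega
        | nonterminal A =>
          show nf G A + k ≤ _
          have := nf_le G A
          omega
      omega)
    rw [List.length_map] at h4 ⊢
    have h5 : r.output.length * (2 * (gsize G + 1 + k) + 2) ≤
        r.output.length * (2 * (gsize G + 1 + k) + 4) := Nat.mul_le_mul_left _ (by omega)
    have h6 : (r.output.length + 1) * (2 * (gsize G + 1 + k) + 4) =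
        r.output.length * (2 * (gsize G + 1 + k) + 4) + (2 * (gsize G + 1 + k) + 4) :=
      Nat.succ_mul _ _
    omega

end

/-! ### Finite languages -/

/-- A code for a finite language. -/
def finCode (P : List (List ℕ)) : List (ℕ × List ℕ) := P.map fun w => (0, w)

lemma map_sym_val {k : ℕ} (w : List (Fin k)) :
    (w.map Fin.val).map (sym k) = w.map terminal := by
  rw [List.map_map]
  refine List.map_congr_left fun a _ => ?_
  show sym k (a : ℕ) = terminal a
  unfold sym
  rw [dif_pos a.2]

theorem language_finCode {k : ℕ} (P : List (List (Fin k))) (w : List (Fin k)) :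
    w ∈ (toCFG k (finCode (P.map (List.map Fin.val)))).language ↔ w ∈ P := by
  rw [mem_language_iff_derG]
  constructor
  · intro h
    obtain ⟨r, hr, -, hu⟩ := h.nt_inv rfl
    obtain ⟨a, ha, rfl⟩ := mem_rules.1 hr
    unfold finCode at ha
    rw [List.mem_map] at ha
    obtain ⟨v, hv, rfl⟩ := ha
    rw [List.mem_map] at hv
    obtain ⟨v', hv', rfl⟩ := hv
    have h1 : DerG (toCFG k (finCode (P.map (List.map Fin.val)))) (v'.map terminal) w :=
      (congrArg (fun l : List (Symbol (Fin k) ℕ) =>
        DerG (toCFG k (finCode (P.map (List.map Fin.val)))) l w) (map_sym_val v')).mp hu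
    rw [h1.eq_of_terminals]
    exact hv'
  · intro h
    have hr : (⟨0, (w.map Fin.val).map (sym k)⟩ : ContextFreeRule (Fin k) ℕ) ∈
        (toCFG k (finCode (P.map (List.map Fin.val)))).rules := by
      apply mem_rules.2
      refine ⟨(0, w.map Fin.val), ?_, rfl⟩
      unfold finCode
      rw [List.mem_map]
      exact ⟨_, List.mem_map_of_mem h, rfl⟩
    have h1 : DerG (toCFG k (finCode (P.map (List.map Fin.val))))
        ((w.map Fin.val).map (sym k)) w :=
      (congrArg (fun l : List (Symbol (Fin k) ℕ) =>
        DerG (toCFG k (finCode (P.map (List.map Fin.val)))) l w) (map_sym_val w)).mpr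
        (DerG.terminals w)
    exact DerG.of_rule (G := toCFG k (finCode (P.map (List.map Fin.val)))) hr h1

end Pool.Agent.Work.MP_35a6f4_lc
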