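import Mathlib

/-!
An inductive description of the derivations of a context-free grammar, and the renaming of
nonterminals.
-/

namespace Pool.Agent.Work.MP_35a6f4_lc

open Symbol

variable {T : Type}

/-- The sentential form derives the word. -/
inductive DerG (G : ContextFreeGrammar T) : List (Symbol T G.NT) → List T → Prop
  | nil : DerG G [] []
  | term (a : T) {α : List (Symbol T G.NT)} {w : List T} :
      DerG G α w → DerG G (terminal a :: α) (a :: w)
  | nt (r : ContextFreeRule T G.NT) (hr : r ∈ G.rules) {α : List (Symbol T G.NT)} {u v : List T} :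
      DerG G r.output u → DerG G α v → DerG G (nonterminal r.input :: α) (u ++ v)

variable {G : ContextFreeGrammar T}

lemma DerG.append {α β : List (Symbol T G.NT)} {u v : List T} (h1 : DerG G α u)
    (h2 : DerG G β v) : DerG G (α ++ β) (u ++ v) := by
  induction h1 with
  | nil => exact h2
  | term a _ ih => exact DerG.term a ih
  | nt r hr h _ _ ih =>
    rw [List.append_assoc]
    exact DerG.nt r hr h ih

lemma DerG.split_aux {γ : List (Symbol T G.NT)} {w : List T} (h : DerG G γ w) :
    ∀ α β, γ = α ++ β → ∃ u v, w = u ++ v ∧ DerG G α u ∧ DerG G β v := by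
  induction h with
  | nil =>
    intro α β h
    have := List.append_eq_nil_iff.1 h.symm
    refine ⟨[], [], rfl, ?_, ?_⟩
    · rw [this.1]; exact DerG.nil
    · rw [this.2]; exact DerG.nil
  | @term a γ w h ih =>
    intro α β hab
    cases α with
    | nil =>
      refine ⟨[], a :: w, rfl, DerG.nil, ?_⟩
      rw [List.nil_append] at hab
      rw [← hab]
      exact DerG.term a h
    | cons s α =>
      rw [List.cons_append, List.cons.injEq] at hab
      obtain ⟨rfl, hab⟩ := hab
      obtain ⟨u, v, rfl, h1, h2⟩ := ih α β hab
      exact ⟨a :: u, v, rfl, DerG.term a h1, h2⟩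
  | @nt r hr γ w1 w2 h h' _ ih =>
    intro α β hab
    cases α with
    | nil =>
      refine ⟨[], w1 ++ w2, rfl, DerG.nil, ?_⟩
      rw [List.nil_append] at hab
      rw [← hab]
      exact DerG.nt r hr h h'
    | cons s α =>
      rw [List.cons_append, List.cons.injEq] at hab
      obtain ⟨rfl, hab⟩ := hab
      obtain ⟨u, v, rfl, h1, h2⟩ := ih α β hab
      exact ⟨w1 ++ u, v, by rw [List.append_assoc], DerG.nt r hr h h1, h2⟩

lemma DerG.split {α β : List (Symbol T G.NT)} {w : List T} (h : DerG G (α ++ β) w) :
    ∃ u v, w = u ++ v ∧ DerG G α u ∧ DerG G β v := h.split_aux α β rfl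

lemma DerG.terminals (w : List T) : DerG G (w.map terminal) w := by
  induction w with
  | nil => exact DerG.nil
  | cons a w ih => exact DerG.term a ih

lemma DerG.eq_of_terminals {w u : List T} (h : DerG G (w.map terminal) u) : u = w := by
  induction w generalizing u with
  | nil =>
    cases h
    rfl
  | cons a w ih =>
    rw [List.map_cons] at h
    cases h with
    | term _ h => rw [ih h]

lemma DerG.nt_inv {γ : List (Symbol T G.NT)} {w : List T} (h : DerG G γ w) {A : G.NT}
    (hγ : γ = [nonterminal A]) : ∃ r ∈ G.rules, r.input = A ∧ DerG G r.output w := by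
  cases h with
  | nil => simp at hγ
  | term a h => simp at hγ
  | @nt r hr α u v h1 h2 =>
    rw [List.cons.injEq, nonterminal.injEq] at hγ
    obtain ⟨hA, rfl⟩ := hγ
    cases h2
    rw [List.append_nil]
    exact ⟨r, hr, hA, h1⟩

lemma DerG.of_rule {r : ContextFreeRule T G.NT} (hr : r ∈ G.rules) {w : List T}
    (h : DerG G r.output w) : DerG G [nonterminal r.input] w := by
  have := DerG.nt r hr h DerG.nil
  rwa [List.append_nil] at this

lemma DerG.derives {α : List (Symbol T G.NT)} {w : List T} (h : DerG G α w) :
    G.Derives α (w.map terminal) := by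
  induction h with
  | nil => exact ContextFreeGrammar.Derives.refl _
  | @term a α w _ ih =>
    have := ih.append_left [terminal a]
    simpa using this
  | @nt r hr α u v _ _ ih1 ih2 =>
    have h1 : G.Derives (nonterminal r.input :: α) (r.output ++ α) := by
      apply ContextFreeGrammar.Produces.single
      exact ⟨r, hr, ContextFreeRule.Rewrites.head α⟩
    have h2 : G.Derives (r.output ++ α) (u.map terminal ++ α) := ih1.append_right α
    have h3 : G.Derives (u.map terminal ++ α) (u.map terminal ++ v.map terminal) :=
      ih2.append_left _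
    rw [List.map_append]
    exact (h1.trans h2).trans h3

lemma derG_of_derives {α : List (Symbol T G.NT)} {w : List T}
    (h : G.Derives α (w.map terminal)) : DerG G α w := by
  induction h using Relation.ReflTransGen.head_induction_on with
  | refl => exact DerG.terminals w
  | @head a c hac _ ih =>
    obtain ⟨r, hr, hrw⟩ := hac
    obtain ⟨p, q, rfl, rfl⟩ := hrw.exists_parts
    obtain ⟨u1, u2, rfl, h1, h2⟩ := ih.split
    obtain ⟨u3, u4, rfl, h3, h4⟩ := h1.split
    have h5 : DerG G [nonterminal r.input] (u4 ++ []) := DerG.nt r hr h4 DerG.nil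
    rw [List.append_nil] at h5
    exact (h3.append h5).append h2

theorem mem_language_iff_derG (w : List T) :
    w ∈ G.language ↔ DerG G [nonterminal G.initial] w := by
  rw [ContextFreeGrammar.mem_language_iff]
  exact ⟨derG_of_derives, DerG.derives⟩

/-! ### Renaming of nonterminals -/

/-- Rename a symbol. -/
def mapSym {N N' : Type} (f : N → N') : Symbol T N → Symbol T N'
  | terminal a => terminal a
  | nonterminal A => nonterminal (f A)

variable {H : ContextFreeGrammar T}

lemma DerG.map (f : G.NT → H.NT)
    (hr : ∀ r ∈ G.rules, (⟨f r.input, r.output.map (mapSym f)⟩ : ContextFreeRule T H.NT) ∈ H.rules)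
    {α : List (Symbol T G.NT)} {w : List T} (h : DerG G α w) :
    DerG H (α.map (mapSym f)) w := by
  induction h with
  | nil => exact DerG.nil
  | term a _ ih => exact DerG.term a ih
  | nt r hr' _ _ ih1 ih2 => exact DerG.nt _ (hr r hr') ih1 ih2

/-- The renaming `f` is injective on the set `S`, which contains all relevant nonterminals. -/
lemma DerG.unmap (f : G.NT → H.NT) (S : Set G.NT) (hf : Set.InjOn f S)
    (hr : ∀ r' ∈ H.rules, ∃ r ∈ G.rules, r.input ∈ S ∧ (∀ A, nonterminal A ∈ r.output → A ∈ S) ∧
      r' = ⟨f r.input, r.output.map (mapSym f)⟩)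
    {β : List (Symbol T H.NT)} {w : List T} (h : DerG H β w) :
    ∀ α : List (Symbol T G.NT), (∀ A, nonterminal A ∈ α → A ∈ S) → β = α.map (mapSym f) →
      DerG G α w := by
  induction h with
  | nil =>
    intro α _ h
    have := List.map_eq_nil_iff.1 h.symm
    rw [this]
    exact DerG.nil
  | @term a β w _ ih =>
    intro α hα h
    cases α with
    | nil => simp at h
    | cons s α =>
      rw [List.map_cons, List.cons.injEq] at h
      cases s with
      | terminal b =>
        have hb : a = b := by
          have := h.1
          simp only [mapSym, terminal.injEq] at this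
          exact this
        subst hb
        exact DerG.term a (ih α (fun A hA => hα A (List.mem_cons_of_mem _ hA)) h.2)
      | nonterminal B => simp [mapSym] at h
  | @nt r' hr' β u v _ _ ih1 ih2 =>
    intro α hα h
    cases α with
    | nil => simp at h
    | cons s α =>
      rw [List.map_cons, List.cons.injEq] at h
      cases s with
      | terminal b => simp [mapSym] at h
      | nonterminal B =>
        obtain ⟨r, hrG, hrS, hrO, rfl⟩ := hr r' hr'
        have hB : r.input = B := by
          have := h.1
          simp only [mapSym, nonterminal.injEq] at this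
          exact hf hrS (hα B List.mem_cons_self) this
        subst hB
        exact DerG.nt r hrG (ih1 r.output hrO rfl)
          (ih2 α (fun A hA => hα A (List.mem_cons_of_mem _ hA)) h.2)

end Pool.Agent.Work.MP_35a6f4_lc
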