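import Pool.Agent.Work.MP_35a6f4_lc.MemPT

/-!
Polynomial-time enumerations of the strings and of the grammar codes.
-/

namespace Pool.Agent.Work.MP_35a6f4_lc

open Pool.Agent.PT

variable {A : Type} [Enc A]

/-- Decode a unary number. -/
def decNat (t : D) : ℕ := t.toL.length

/-- Decode a list of numbers. -/
def decStr (t : D) : List ℕ := t.toL.map decNat

/-- Decode a grammar code. -/
def decCode (t : D) : List (ℕ × List ℕ) := t.toL.map fun u => (decNat u.hd, decStr u.tl)

@[fun_prop]
lemma ptf_decNat {f : A → D} (hf : PTF f) : PTF (fun a => decNat (f a)) := by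
  unfold decNat
  fun_prop

@[fun_prop]
lemma ptf_decStr {f : A → D} (hf : PTF f) : PTF (fun a => decStr (f a)) := by
  unfold decStr
  fun_prop

@[fun_prop]
lemma ptf_decCode {f : A → D} (hf : PTF f) : PTF (fun a => decCode (f a)) := by
  unfold decCode
  fun_prop

lemma decNat_enc (n : ℕ) : decNat (enc n) = n := by
  unfold decNat
  induction n with
  | zero => rfl
  | succ n ih => rw [enc_succ, D.toL, List.length_cons, ih]

lemma decStr_enc (l : List ℕ) : decStr (enc l) = l := by
  unfold decStr
  rw [D.toL_enc, List.map_map]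
  conv_rhs => rw [← List.map_id l]
  exact List.map_congr_left fun a _ => decNat_enc a

lemma decCode_enc (g : List (ℕ × List ℕ)) : decCode (enc g) = g := by
  unfold decCode
  rw [D.toL_enc, List.map_map]
  conv_rhs => rw [← List.map_id g]
  refine List.map_congr_left fun a _ => ?_
  obtain ⟨n, l⟩ := a
  show (decNat (enc n), decStr (enc l)) = _
  rw [decNat_enc, decStr_enc]
  rfl

/-- The bit string with number `l`. -/
def bitsOf (l : ℕ) : List Bool :=
  (Computability.encodeNat l).take ((Computability.encodeNat l).length - 1)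

@[fun_prop]
lemma ptf_bitsOf {f : A → ℕ} (hf : PTF f) : PTF (fun a => bitsOf (f a)) := by
  have h0 : PTF (fun n : ℕ => Computability.encodeNat n) := EncP.nat
  have h1 : PTF (fun a => Computability.encodeNat (f a)) := h0.comp hf
  unfold bitsOf
  exact h1.take h1.length.pred

/-- The positive number with given binary digits. -/
def posOf : List Bool → PosNum
  | [] => PosNum.one
  | false :: b => PosNum.bit0 (posOf b)
  | true :: b => PosNum.bit1 (posOf b)

lemma encode_posOf (b : List Bool) : Computability.encodePosNum (posOf b) = b ++ [true] := by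
  induction b with
  | nil => rfl
  | cons a b ih =>
    cases a with
    | false =>
      show false :: Computability.encodePosNum (posOf b) = _
      rw [ih]; rfl
    | true =>
      show true :: Computability.encodePosNum (posOf b) = _
      rw [ih]; rfl

lemma natSize_posOf (b : List Bool) : (posOf b).natSize = b.length + 1 := by
  induction b with
  | nil => rfl
  | cons a b ih =>
    cases a with
    | false =>
      show Nat.succ (posOf b).natSize = _
      rw [ih]; rfl
    | true =>
      show Nat.succ (posOf b).natSize = _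
      rw [ih]; rfl

lemma exists_bits (b : List Bool) : ∃ l : ℕ, bitsOf l = b ∧ Nat.size l = b.length + 1 := by
  refine ⟨(posOf b : ℕ), ?_, ?_⟩
  · have h1 : Computability.encodeNat ((posOf b : PosNum) : ℕ) = b ++ [true] := by
      unfold Computability.encodeNat
      rw [PosNum.of_to_nat]
      exact encode_posOf b
    unfold bitsOf
    rw [h1]
    simp
  · rw [← PosNum.natSize_to_nat, natSize_posOf]

/-- The `l`-th grammar code. -/
def gr (l : ℕ) : List (ℕ × List ℕ) := decCode (parse (bitsOf l))

/-- The `x`-th string. -/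
def str (k x : ℕ) : List ℕ := (decStr (parse (bitsOf x))).filter fun s => decide (s < k)

@[fun_prop]
lemma ptf_gr {f : A → ℕ} (hf : PTF f) : PTF (fun a => gr (f a)) := by
  unfold gr
  exact ptf_decCode (ptf_parse.comp (ptf_bitsOf hf))

@[fun_prop]
lemma ptf_str {k : ℕ} {f : A → ℕ} (hf : PTF f) : PTF (fun a => str k (f a)) := by
  unfold str
  refine PTF.filter' (by fun_prop) ?_
  exact ptf_decStr (ptf_parse.comp (ptf_bitsOf hf))

lemma gr_surj (g : List (ℕ × List ℕ)) : ∃ l, gr l = g ∧ Nat.size l = sz g + 1 := by
  obtain ⟨l, h1, h2⟩ := exists_bits (enc g).enc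
  refine ⟨l, ?_, ?_⟩
  · unfold gr
    rw [h1, parse_enc, decCode_enc]
  · rw [h2, D.length_enc]; rfl

lemma str_surj {k : ℕ} (w : List (Fin k)) : ∃ x, str k x = w.map Fin.val := by
  obtain ⟨x, h1, -⟩ := exists_bits (enc (w.map Fin.val)).enc
  refine ⟨x, ?_⟩
  unfold str
  rw [h1, parse_enc, decStr_enc, List.filter_eq_self]
  intro a ha
  rw [List.mem_map] at ha
  obtain ⟨b, _, rfl⟩ := ha
  simpa using b.2

lemma str_range {k : ℕ} (x : ℕ) : ∃ w : List (Fin k), str k x = w.map Fin.val := by
  have h : ∀ l : List ℕ, (∀ a ∈ l, a < k) → ∃ w : List (Fin k), l = w.map Fin.val := by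
    intro l
    induction l with
    | nil => intro _; exact ⟨[], rfl⟩
    | cons a l ih =>
      intro h
      obtain ⟨w, hw⟩ := ih fun b hb => h b (List.mem_cons_of_mem _ hb)
      exact ⟨⟨a, h a List.mem_cons_self⟩ :: w, by rw [List.map_cons, ← hw]⟩
  apply h
  intro a ha
  unfold str at ha
  rw [List.mem_filter] at ha
  simpa using ha.2

end Pool.Agent.Work.MP_35a6f4_lc
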