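import Pool.Agent.Work.MP_35a6f4_lc.TeachPT
import Pool.Agent.Work.MP_35a6f4_lc.Conv

/-!
The learner.
-/

namespace Pool.Agent.Work.MP_35a6f4_lc

open Symbol Pool.Agent.PT

variable {A : Type} [Enc A]

/-- The total length of the sample. -/
def msz (P N : List (List ℕ)) : ℕ :=
  (P.map fun w => w.length).sum + (N.map fun w => w.length).sum

/-- The test for the `l`-th grammar code: it is consistent with the sample, and its teaching set is
contained in the sample. -/
def test (k : ℕ) (P N : List (List ℕ)) (l : ℕ) : Bool :=
  (P.all fun w => mem k (gr l) w) && ((N.all fun w => !mem k (gr l) w) &&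
    (Tn (conc k) (msz P N) l).all fun p =>
      bif p.2 then decide (str k p.1 ∈ P) else decide (str k p.1 ∈ N))

/-- The learner on strings of numbers. -/
def learn (k : ℕ) (P N : List (List ℕ)) : List (ℕ × List ℕ) :=
  (((List.range (msz P N)).find? (test k P N)).map gr).getD (finCode P)

@[fun_prop]
lemma ptf_msz {P N : A → List (List ℕ)} (hP : PTF P) (hN : PTF N) :
    PTF (fun a => msz (P a) (N a)) := by
  unfold msz
  fun_prop

@[fun_prop]
lemma ptf_test {k : ℕ} {P N : A → List (List ℕ)} {l : A → ℕ} (hP : PTF P) (hN : PTF N)
    (hl : PTF l) : PTF (fun a => test k (P a) (N a) (l a)) := by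
  unfold test
  refine PTF.and ?_ (PTF.and ?_ ?_)
  · refine PTF.all' ?_ hP
    fun_prop
  · refine PTF.all' ?_ hN
    fun_prop
  · refine PTF.all' ?_ (by fun_prop)
    refine PTF.cond' (by fun_prop) ?_ ?_
    · exact ptf_decide_mem (by fun_prop) (by fun_prop)
    · exact ptf_decide_mem (by fun_prop) (by fun_prop)

theorem ptf_learn {k : ℕ} {P N : A → List (List ℕ)} (hP : PTF P) (hN : PTF N) :
    PTF (fun a => learn k (P a) (N a)) := by
  unfold learn finCode
  refine PTF.optionGetD ?_ (by fun_prop)
  refine PTF.optionMap' (by fun_prop) ?_
  refine PTF.find' ?_ (by fun_prop)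
  fun_prop

/-- Strings over the alphabet as strings of numbers. -/
def vals {k : ℕ} (P : List (List (Fin k))) : List (List ℕ) := P.map (List.map Fin.val)

lemma mem_vals {k : ℕ} {P : List (List (Fin k))} {w : List (Fin k)} :
    w.map Fin.val ∈ vals P ↔ w ∈ P := by
  unfold vals
  constructor
  · intro h
    obtain ⟨v, hv, h⟩ := List.mem_map.1 h
    rw [← (List.map_injective_iff.2 Fin.val_injective) h]
    exact hv
  · intro h
    exact List.mem_map_of_mem h

lemma test_iff {k : ℕ} {P N : List (List (Fin k))} {l : ℕ} :
    test k (vals P) (vals N) l = true ↔
      (∀ w ∈ P, w ∈ (toCFG k (gr l)).language) ∧ (∀ w ∈ N, w ∉ (toCFG k (gr l)).language) ∧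
      ∀ p ∈ Tn (conc k) (msz (vals P) (vals N)) l,
        (p.2 = true → str k p.1 ∈ vals P) ∧ (p.2 = false → str k p.1 ∈ vals N) := by
  unfold test
  rw [Bool.and_eq_true, Bool.and_eq_true, List.all_eq_true, List.all_eq_true, List.all_eq_true]
  refine and_congr ?_ (and_congr ?_ ?_)
  · constructor
    · intro h w hw
      exact (mem_iff k _ w).1 (h _ (mem_vals.2 hw))
    · intro h v hv
      obtain ⟨w, hw, rfl⟩ := List.mem_map.1 hv
      exact (mem_iff k _ w).2 (h w hw)
  · constructor
    · intro h w hw hcon
      have h1 := h _ (mem_vals.2 hw)
      rw [(mem_iff k _ w).2 hcon] at h1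
      simp at h1
    · intro h v hv
      obtain ⟨w, hw, rfl⟩ := List.mem_map.1 hv
      have h1 := h w hw
      rw [← mem_iff] at h1
      simpa using h1
  · refine forall₂_congr fun p _ => ?_
    cases p.2 <;> simp

/-- The learner is always consistent. -/
theorem learn_consistent {k : ℕ} (P N : List (List (Fin k))) (h : ∀ w ∈ P, w ∉ N) :
    (∀ w ∈ P, w ∈ (toCFG k (learn k (vals P) (vals N))).language) ∧
    ∀ w ∈ N, w ∉ (toCFG k (learn k (vals P) (vals N))).language := by
  unfold learn
  rcases hf : (List.range (msz (vals P) (vals N))).find? (test k (vals P) (vals N)) with _ | l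
  · simp only [Option.map_none, Option.getD_none]
    refine ⟨fun w hw => (language_finCode P w).2 hw, fun w hw hcon => ?_⟩
    exact h w ((language_finCode P w).1 hcon) hw
  · simp only [Option.map_some, Option.getD_some]
    have h1 := List.find?_some hf
    rw [test_iff] at h1
    exact ⟨h1.1, h1.2.1⟩

lemma conc_iff {k l x : ℕ} {w : List (Fin k)} (h : str k x = w.map Fin.val) :
    conc k l x = true ↔ w ∈ (toCFG k (gr l)).language := by
  unfold conc
  rw [h, mem_iff]

lemma length_le_sum {α : Type} (f : α → ℕ) (P : List α) (w : α) (h : w ∈ P) :
    f w ≤ (P.map f).sum := by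
  induction P with
  | nil => cases h
  | cons a P ih =>
    rw [List.map_cons, List.sum_cons]
    rcases List.mem_cons.1 h with rfl | h
    · omega
    · have := ih h; omega

/-- Characteristic samples with polynomially many strings. -/
theorem learn_char {k : ℕ} (G : ContextFreeGrammar (Fin k)) :
    ∃ P0 N0 : Finset (List (Fin k)), (∀ w ∈ P0, w ∈ G.language) ∧ (∀ w ∈ N0, w ∉ G.language) ∧
      P0.card + N0.card ≤ (gsize G * (2 * (gsize G + 1 + k) + 4) + 3) ^ 2 + 1 ∧
      ∀ P N : List (List (Fin k)), (∀ w ∈ P, w ∈ G.language) → (∀ w ∈ N, w ∉ G.language) →
        (∀ w ∈ P0, w ∈ P) → (∀ w ∈ N0, w ∈ N) →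
        (toCFG k (learn k (vals P) (vals N))).language = G.language := by
  classical
  rcases Nat.eq_zero_or_pos k with hk | hk
  · -- the empty alphabet
    subst hk
    have hnil : ∀ w : List (Fin 0), w = [] := by
      intro w
      cases w with
      | nil => rfl
      | cons a w => exact a.elim0
    have hlearn : ∀ P N : List (List (Fin 0)), learn 0 (vals P) (vals N) = finCode (vals P) := by
      intro P N
      have h0 : msz (vals P) (vals N) = 0 := by
        have h1 : ∀ Q : List (List (Fin 0)), ((vals Q).map fun w => w.length).sum = 0 := by
          intro Q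
          unfold vals
          rw [List.map_map, List.sum_eq_zero_iff]
          intro m hm
          obtain ⟨w, _, rfl⟩ := List.mem_map.1 hm
          rw [hnil w]; rfl
        unfold msz
        rw [h1, h1]
      unfold learn
      rw [h0]
      rfl
    refine ⟨if [] ∈ G.language then {[]} else ∅, if [] ∈ G.language then ∅ else {[]}, ?_, ?_, ?_, ?_⟩
    · intro w hw
      split_ifs at hw with h
      · rw [hnil w]; exact h
      · simp at hw
    · intro w hw
      split_ifs at hw with h
      · simp at hw
      · rw [hnil w]; exact h
    · split_ifs <;> simp
    · intro P N hP hN hP0 hN0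
      rw [hlearn]
      ext w
      have h1 := language_finCode P w
      unfold vals
      rw [h1]
      constructor
      · exact hP w
      · intro hw
        rw [hnil w] at hw ⊢
        apply hP0
        rw [if_pos hw]
        simp
  · -- the least index of the language
    obtain ⟨l, hl, hlsize⟩ := gr_surj (codeOf G)
    have hex : ∃ l, (toCFG k (gr l)).language = G.language := ⟨l, by rw [hl, language_codeOf]⟩
    set t := Nat.find hex with ht
    have htl : (toCFG k (gr t)).language = G.language := Nat.find_spec hex
    have htle : t ≤ l := Nat.find_min' hex (by rw [hl, language_codeOf])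
    obtain ⟨T, n0, hn0t, hn0b, hTlen, hTlab, hTn⟩ := Tn_eventually (c := conc k) t
    -- all smaller indices are refuted early
    obtain ⟨n1, hn1⟩ : ∃ n1, ∀ l' < t, ∃ x < n1, conc k l' x ≠ conc k t x := by
      have hx : ∀ l', ∃ x, l' < t → conc k l' x ≠ conc k t x := by
        intro l'
        by_cases hlt : l' < t
        · have hne : (toCFG k (gr l')).language ≠ (toCFG k (gr t)).language := by
            rw [htl]
            exact Nat.find_min hex hlt
          have : ∃ w, ¬ (w ∈ (toCFG k (gr l')).language ↔ w ∈ (toCFG k (gr t)).language) := by
            by_contra hcon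
            push Not at hcon
            apply hne
            ext w
            exact hcon w
          obtain ⟨w, hw⟩ := this
          obtain ⟨x, hx⟩ := str_surj w
          refine ⟨x, fun _ heq => hw ?_⟩
          rw [← conc_iff hx, ← conc_iff hx, heq]
        · exact ⟨0, fun h => absurd h hlt⟩
      choose f hf using hx
      refine ⟨(Finset.range t).sup f + 1, fun l' hl' => ⟨f l', ?_, hf l' hl'⟩⟩
      exact Nat.lt_succ_of_le (Finset.le_sup (Finset.mem_range.2 hl'))
    -- decode the strings
    choose sw hsw using fun x => str_range (k := k) x
    set m := max n0 n1 with hm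
    set pad : List (Fin k) := List.replicate m ⟨0, hk⟩ with hpad
    set P0 : Finset (List (Fin k)) :=
      ((T.filter fun p => p.2).map fun p => sw p.1).toFinset ∪
        (if pad ∈ G.language then {pad} else ∅) with hP0
    set N0 : Finset (List (Fin k)) :=
      ((T.filter fun p => !p.2).map fun p => sw p.1).toFinset ∪
        (if pad ∈ G.language then ∅ else {pad}) with hN0
    have hlab : ∀ p ∈ T, (p.2 = true ↔ sw p.1 ∈ G.language) := by
      intro p hp
      rw [hTlab p hp, conc_iff (hsw p.1), htl]
    refine ⟨P0, N0, ?_, ?_, ?_, ?_⟩
    · intro w hw
      rw [hP0, Finset.mem_union, List.mem_toFinset, List.mem_map] at hw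
      rcases hw with ⟨p, hp, rfl⟩ | hw
      · rw [List.mem_filter] at hp
        exact (hlab p hp.1).1 hp.2
      · split_ifs at hw with h
        · rw [Finset.mem_singleton] at hw; rw [hw]; exact h
        · simp at hw
    · intro w hw
      rw [hN0, Finset.mem_union, List.mem_toFinset, List.mem_map] at hw
      rcases hw with ⟨p, hp, rfl⟩ | hw
      · rw [List.mem_filter] at hp
        intro hcon
        have := (hlab p hp.1).2 hcon
        rw [this] at hp
        simp at hp
      · split_ifs at hw with h
        · simp at hw
        · rw [Finset.mem_singleton] at hw; rw [hw]; exact h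
    · -- counting
      have c1 : (((T.filter fun p => p.2).map fun p => sw p.1).toFinset).card ≤
          (T.filter fun p => p.2).length := by
        refine (List.toFinset_card_le _).trans ?_
        rw [List.length_map]
      have c2 : (((T.filter fun p => !p.2).map fun p => sw p.1).toFinset).card ≤
          (T.filter fun p => !p.2).length := by
        refine (List.toFinset_card_le _).trans ?_
        rw [List.length_map]
      have c3 : T.length = (T.filter fun p => p.2).length + (T.filter fun p => !p.2).length :=
        List.length_eq_length_filter_add _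
      have c4 : (if pad ∈ G.language then ({pad} : Finset (List (Fin k))) else ∅).card +
          (if pad ∈ G.language then (∅ : Finset (List (Fin k))) else {pad}).card = 1 := by
        split_ifs <;> simp
      have c5 := Finset.card_union_le ((T.filter fun p => p.2).map fun p => sw p.1).toFinset
        (if pad ∈ G.language then ({pad} : Finset (List (Fin k))) else ∅)
      have c6 := Finset.card_union_le ((T.filter fun p => !p.2).map fun p => sw p.1).toFinset
        (if pad ∈ G.language then (∅ : Finset (List (Fin k))) else {pad})
      have c7 : bnd (Nat.size t) ≤ (sz (codeOf G) + 2) ^ 2 := by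
        have h1 : Nat.size t ≤ sz (codeOf G) + 1 := by
          rw [← hlsize]; exact Nat.size_le_size htle
        refine (bnd_le _).trans ?_
        exact Nat.pow_le_pow_left (by omega) 2
      have c8 : (sz (codeOf G) + 2) ^ 2 ≤ (gsize G * (2 * (gsize G + 1 + k) + 4) + 3) ^ 2 := by
        refine Nat.pow_le_pow_left ?_ 2
        have := sz_codeOf G
        omega
      rw [← hP0] at c5
      rw [← hN0] at c6
      omega
    · -- identification
      intro P N hP hN hPP hNN
      set n := msz (vals P) (vals N) with hn
      have hmn : m ≤ n := by
        have hlen : pad.length = m := List.length_replicate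
        by_cases hp : pad ∈ G.language
        · have h1 : pad ∈ P := hPP pad (by
            rw [hP0, Finset.mem_union, if_pos hp]; right; simp)
          have h2 := length_le_sum (fun w : List ℕ => w.length) (vals P) (pad.map Fin.val)
            (mem_vals.2 h1)
          simp only [List.length_map, hlen] at h2
          rw [hn]; unfold msz
          exact h2.trans (Nat.le_add_right _ _)
        · have h1 : pad ∈ N := hNN pad (by
            rw [hN0, Finset.mem_union, if_neg hp]; right; simp)
          have h2 := length_le_sum (fun w : List ℕ => w.length) (vals N) (pad.map Fin.val)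
            (mem_vals.2 h1)
          simp only [List.length_map, hlen] at h2
          rw [hn]; unfold msz
          exact h2.trans (Nat.le_add_left _ _)
      have hn0 : n0 ≤ n := (le_max_left _ _).trans hmn
      have hn1' : n1 ≤ n := (le_max_right _ _).trans hmn
      have htn : t < n := lt_of_lt_of_le hn0t hn0
      have hTnn := hTn n hn0
      -- the labels in the sample
      have hlabP : ∀ x, str k x ∈ vals P → conc k t x = true := by
        intro x hx
        rw [hsw x] at hx
        rw [conc_iff (hsw x), htl]
        exact hP _ (mem_vals.1 hx)
      have hlabN : ∀ x, str k x ∈ vals N → conc k t x = false := by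
        intro x hx
        rw [hsw x] at hx
        have h1 : ¬ conc k t x = true := by
          rw [conc_iff (hsw x), htl]
          exact hN _ (mem_vals.1 hx)
        simpa using h1
      -- the target passes the test
      have htest : test k (vals P) (vals N) t = true := by
        rw [test_iff, ← hn, hTnn, htl]
        refine ⟨hP, hN, fun p hp => ⟨fun hb => ?_, fun hb => ?_⟩⟩
        · rw [hsw p.1]
          apply mem_vals.2
          apply hPP
          rw [hP0, Finset.mem_union, List.mem_toFinset, List.mem_map]
          left
          exact ⟨p, List.mem_filter.2 ⟨hp, hb⟩, rfl⟩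
        · rw [hsw p.1]
          apply mem_vals.2
          apply hNN
          rw [hN0, Finset.mem_union, List.mem_toFinset, List.mem_map]
          left
          exact ⟨p, List.mem_filter.2 ⟨hp, by rw [hb]; rfl⟩, rfl⟩
      unfold learn
      rw [← hn]
      rcases hf : (List.range n).find? (test k (vals P) (vals N)) with _ | l'
      · exfalso
        rw [List.find?_eq_none] at hf
        exact hf t (List.mem_range.2 htn) htest
      · simp only [Option.map_some, Option.getD_some]
        rw [List.find?_range_eq_some] at hf
        obtain ⟨hf1, hf2, hf3⟩ := hf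
        have hle : l' ≤ t := by
          by_contra hcon
          push Not at hcon
          have := hf3 t hcon
          rw [htest] at this
          simp at this
        rcases hle.lt_or_eq with hlt | heq
        · exfalso
          rw [test_iff, ← hn] at hf1
          obtain ⟨g1, g2, g3⟩ := hf1
          obtain ⟨x, hx, hne⟩ := hn1 l' hlt
          refine no_clash (c := conc k) (n := n) (l := l') (t := t) htn
            (lt_of_lt_of_le hn0b hn0) ⟨x, lt_of_lt_of_le hx hn1', hne⟩ ?_ ?_
          · intro p hp
            rcases hb : p.2 with _ | _
            · exact hlabN _ ((g3 p hp).2 hb)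
            · exact hlabP _ ((g3 p hp).1 hb)
          · intro p hp
            rw [hTnn] at hp
            rcases hb : p.2 with _ | _
            · have h1 : sw p.1 ∈ N := by
                apply hNN
                rw [hN0, Finset.mem_union, List.mem_toFinset, List.mem_map]
                left
                exact ⟨p, List.mem_filter.2 ⟨hp, by rw [hb]; rfl⟩, rfl⟩
              have h2 : ¬ conc k l' p.1 = true := by
                rw [conc_iff (hsw p.1)]
                exact g2 _ h1
              simpa using h2
            · have h1 : sw p.1 ∈ P := by
                apply hPP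
                rw [hP0, Finset.mem_union, List.mem_toFinset, List.mem_map]
                left
                exact ⟨p, List.mem_filter.2 ⟨hp, hb⟩, rfl⟩
              rw [conc_iff (hsw p.1)]
              exact g1 _ h1
        · rw [heq, htl]

end Pool.Agent.Work.MP_35a6f4_lc
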