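import Pool.Agent.Work.MP_35a6f4_lc.Member
import Pool.Agent.Work.PT.BitEnc
import Pool.Agent.Work.PT.Serial

/-!
The membership test is polynomial-time.
-/

namespace Pool.Agent.Work.MP_35a6f4_lc

open Pool.Agent.PT

variable {A : Type} [Enc A]

lemma sz_filter_le {β : Type} [Enc β] (p : β → Bool) (l : List β) :
    sz (l.filter p) ≤ sz l := by
  induction l with
  | nil => exact le_rfl
  | cons a l ih =>
    rw [List.filter_cons]
    split_ifs
    · rw [sz_cons, sz_cons]; omega
    · rw [sz_cons]; omega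

lemma ptf_decide_mem {β : Type} [Enc β] [DecidableEq β] {f : A → β} {l : A → List β}
    [∀ a, Decidable (f a ∈ l a)] (hf : PTF f) (hl : PTF l) :
    PTF (fun a => decide (f a ∈ l a)) :=
  (PTF.mem hf hl).congr (fun a => by congr)

lemma ptf_good {k : ℕ} {w : A → List ℕ} {D : A → List (ℕ × (ℕ × ℕ))} {p s q : A → ℕ}
    (hw : PTF w) (hD : PTF D) (hp : PTF p) (hs : PTF s) (hq : PTF q) :
    PTF (fun a => good k (w a) (D a) (p a) (s a) (q a)) := by
  unfold good
  have h1 : PTF (fun a => decide ((w a)[p a]? = some (s a))) :=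
    PTF.eq (PTF.get? hw hp) hs.some
  have h2 : PTF (fun a => decide (q a = p a + 1) && decide ((w a)[p a]? = some (s a))) :=
    (PTF.eq hq hp.succ).and h1
  have h3 : PTF (fun a => decide ((s a - k, (p a, q a)) ∈ D a)) :=
    ptf_decide_mem (by fun_prop) hD
  exact PTF.ite (p := fun a => s a < k) (hs.lt (PTF.const k)) h2 h3

lemma ptf_step1 {k : ℕ} {w : A → List ℕ} {D : A → List (ℕ × (ℕ × ℕ))} {I : A → List ℕ}
    {s : A → ℕ} (hw : PTF w) (hD : PTF D) (hI : PTF I) (hs : PTF s) :
    PTF (fun a => step1 k (w a) (D a) (I a) (s a)) := by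
  unfold step1
  refine PTF.filter' ?_ (by fun_prop)
  refine PTF.any' ?_ (by fun_prop)
  exact ptf_good (by fun_prop) (by fun_prop) (by fun_prop) (by fun_prop) (by fun_prop)

lemma ptf_reach {k : ℕ} {w : A → List ℕ} {D : A → List (ℕ × (ℕ × ℕ))} {i : A → ℕ}
    {al : A → List ℕ} (hw : PTF w) (hD : PTF D) (hi : PTF i) (hal : PTF al) :
    PTF (fun a => reach k (w a) (D a) (i a) (al a)) := by
  unfold reach
  have hr : PTF (fun a => List.range ((w a).length + 1)) := by fun_prop
  refine PTF.foldl (l := al) (init := fun a => [i a])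
    (step := fun p : A × (List ℕ × ℕ) => step1 k (w p.1) (D p.1) p.2.1 p.2.2) hal (by fun_prop)
    (ptf_step1 (by fun_prop) (by fun_prop) (by fun_prop) (by fun_prop))
    (fun a => sz [i a] + sz (List.range ((w a).length + 1)))
    (PB.add (PTF.size (f := fun a => [i a]) (by fun_prop)) hr.size) ?_
  intro a l1 l2 _
  rcases List.eq_nil_or_concat l1 with rfl | ⟨l, b, rfl⟩
  · simp only [List.foldl_nil]; omega
  · rw [List.concat_eq_append, List.foldl_append]
    simp only [List.foldl_cons, List.foldl_nil]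
    unfold step1
    have := sz_filter_le (fun q => (List.foldl (fun s b => step1 k (w (a, s, b).1) (D (a, s, b).1)
      (a, s, b).2.1 (a, s, b).2.2) [i a] l).any fun p => good k (w a) (D a) p b q)
      (List.range ((w a).length + 1))
    exact this.trans (Nat.le_add_left _ _)

lemma ptf_triples {g : A → List (ℕ × List ℕ)} {w : A → List ℕ} (hg : PTF g) (hw : PTF w) :
    PTF (fun a => triples (g a) (w a)) := by
  unfold triples
  fun_prop

lemma ptf_round {k : ℕ} {g : A → List (ℕ × List ℕ)} {w : A → List ℕ}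
    {D : A → List (ℕ × (ℕ × ℕ))} (hg : PTF g) (hw : PTF w) (hD : PTF D) :
    PTF (fun a => round k (g a) (w a) (D a)) := by
  unfold round
  refine PTF.filter' ?_ (ptf_triples hg hw)
  refine PTF.any' ?_ (by fun_prop)
  refine PTF.and (by fun_prop) ?_
  refine PTF.mem (by fun_prop) ?_
  exact ptf_reach (by fun_prop) (by fun_prop) (by fun_prop) (by fun_prop)

lemma ptf_DD {k : ℕ} {g : A → List (ℕ × List ℕ)} {w : A → List ℕ} (hg : PTF g) (hw : PTF w) :
    PTF (fun a => DD k (g a) (w a)) := by
  unfold DD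
  have ht := ptf_triples hg hw
  refine PTF.nat_iterate (n := fun a => (triples (g a) (w a)).length) (init := fun _ => [])
    (step := fun p : A × List (ℕ × (ℕ × ℕ)) => round k (g p.1) (w p.1) p.2) ht.length
    (PTF.const _) (ptf_round (by fun_prop) (by fun_prop) (by fun_prop))
    (fun a => sz (triples (g a) (w a)) + 1) (ht.size.add (PB.const 1)) ?_
  intro a i _
  cases i with
  | zero =>
    simp only [Function.iterate_zero, id_eq]
    rw [sz_nil]; omega
  | succ i =>
    rw [Function.iterate_succ_apply']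
    have := sz_filter_le (fun t => (g a).any fun r =>
      decide (r.1 = t.1) && decide (t.2.2 ∈ reach k (w a) ((fun s => round k (g (a, s).1)
        (w (a, s).1) (a, s).2)^[i] []) t.2.1 r.2)) (triples (g a) (w a))
    exact this.trans (Nat.le_succ _)

@[fun_prop]
theorem ptf_mem {k : ℕ} {g : A → List (ℕ × List ℕ)} {w : A → List ℕ} (hg : PTF g)
    (hw : PTF w) : PTF (fun a => mem k (g a) (w a)) := by
  unfold mem
  refine ptf_decide_mem ?_ (ptf_DD hg hw)
  fun_prop

end Pool.Agent.Work.MP_35a6f4_lc
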