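import Pool.Agent.Work.MP_35a6f4_lc.Der

/-!
Grammar codes and a membership test by dynamic programming.
-/

namespace Pool.Agent.Work.MP_35a6f4_lc

open Symbol

/-- The symbol with number `s`: a letter if `s < k`, otherwise the nonterminal `s - k`. -/
def sym (k s : ℕ) : Symbol (Fin k) ℕ :=
  if h : s < k then terminal ⟨s, h⟩ else nonterminal (s - k)

lemma sym_terminal {k s : ℕ} {a : Fin k} (h : sym k s = terminal a) : s < k ∧ s = (a : ℕ) := by
  unfold sym at h
  split_ifs at h with hlt
  · rw [terminal.injEq] at h
    exact ⟨hlt, by rw [← h]⟩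

lemma sym_nonterminal {k s A : ℕ} (h : sym k s = nonterminal A) : ¬ s < k ∧ s - k = A := by
  unfold sym at h
  split_ifs at h with hlt
  · rw [nonterminal.injEq] at h
    exact ⟨hlt, h⟩

/-- The context-free grammar with a given list of productions; the nonterminals are natural
numbers and the initial one is `0`. -/
def toCFG (k : ℕ) (g : List (ℕ × List ℕ)) : ContextFreeGrammar (Fin k) where
  NT := ℕ
  initial := 0
  rules := (g.map fun r => (⟨r.1, r.2.map (sym k)⟩ : ContextFreeRule (Fin k) ℕ)).toFinset

lemma mem_rules {k : ℕ} {g : List (ℕ × List ℕ)} {r : ContextFreeRule (Fin k) ℕ} :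
    r ∈ (toCFG k g).rules ↔ ∃ a ∈ g, r = ⟨a.1, a.2.map (sym k)⟩ := by
  show r ∈ (g.map _).toFinset ↔ _
  rw [List.mem_toFinset, List.mem_map]
  constructor
  · rintro ⟨a, ha, h⟩; exact ⟨a, ha, h.symm⟩
  · rintro ⟨a, ha, h⟩; exact ⟨a, ha, h.symm⟩

/-- The symbol `s` derives the part of `w` between positions `p` and `q`, according to `D`. -/
def good (k : ℕ) (w : List ℕ) (D : List (ℕ × (ℕ × ℕ))) (p s q : ℕ) : Bool :=
  if s < k then decide (q = p + 1) && decide (w[p]? = some s) else decide ((s - k, (p, q)) ∈ D)

/-- One more symbol. -/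
def step1 (k : ℕ) (w : List ℕ) (D : List (ℕ × (ℕ × ℕ))) (I : List ℕ) (s : ℕ) : List ℕ :=
  (List.range (w.length + 1)).filter fun q => I.any fun p => good k w D p s q

/-- Positions reachable from `i` by deriving a part of `w` from `α`. -/
def reach (k : ℕ) (w : List ℕ) (D : List (ℕ × (ℕ × ℕ))) (i : ℕ) (α : List ℕ) : List ℕ :=
  α.foldl (step1 k w D) [i]

/-- All candidate triples. -/
def triples (g : List (ℕ × List ℕ)) (w : List ℕ) : List (ℕ × (ℕ × ℕ)) :=
  g.flatMap fun r => (List.range (w.length + 1)).flatMap fun i =>
    (List.range (w.length + 1)).map fun j => (r.1, (i, j))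

/-- One round of the closure. -/
def round (k : ℕ) (g : List (ℕ × List ℕ)) (w : List ℕ) (D : List (ℕ × (ℕ × ℕ))) :
    List (ℕ × (ℕ × ℕ)) :=
  (triples g w).filter fun t => g.any fun r =>
    decide (r.1 = t.1) && decide (t.2.2 ∈ reach k w D t.2.1 r.2)

/-- The closure. -/
def DD (k : ℕ) (g : List (ℕ × List ℕ)) (w : List ℕ) : List (ℕ × (ℕ × ℕ)) :=
  (round k g w)^[(triples g w).length] []

/-- The membership test. -/
def mem (k : ℕ) (g : List (ℕ × List ℕ)) (w : List ℕ) : Bool :=
  decide ((0, (0, w.length)) ∈ DD k g w)

/-! ### The closure is reached -/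

lemma iterate_filter_closed {γ : Type} (C : List γ) (p : List γ → γ → Bool)
    (hp : ∀ D D' : List γ, (∀ x ∈ D, x ∈ D') → ∀ x, p D x = true → p D' x = true) :
    (fun D => C.filter (p D)) ((fun D => C.filter (p D))^[C.length] []) =
      (fun D => C.filter (p D))^[C.length] [] := by
  set f : List γ → List γ := fun D => C.filter (p D) with hf
  have hmono : ∀ i, ∀ x ∈ f^[i] [], x ∈ f^[i + 1] [] := by
    intro i
    induction i with
    | zero => intro x hx; simp at hx
    | succ i ih =>
      intro x hx
      rw [Function.iterate_succ_apply'] at hx ⊢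
      rw [hf] at hx ⊢
      simp only [List.mem_filter] at hx ⊢
      exact ⟨hx.1, hp _ _ ih _ hx.2⟩
  have hlen : ∀ i, f^[i + 1] [] = f^[i] [] ∨ i + 1 ≤ (f^[i + 1] []).length := by
    intro i
    induction i with
    | zero =>
      rcases h : f [] with _ | ⟨a, l⟩
      · left
        show f [] = []
        exact h
      · right
        show 1 ≤ (f []).length
        rw [h]; simp
    | succ i ih =>
      rcases ih with ih | ih
      · left
        rw [Function.iterate_succ_apply' f (i + 1), ih, ← Function.iterate_succ_apply' f i, ih]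
      · by_cases heq : f^[i + 1 + 1] [] = f^[i + 1] []
        · left; exact heq
        · right
          by_contra hcon
          apply heq
          have h1 : f^[i + 1] [] = C.filter (p (f^[i] [])) := Function.iterate_succ_apply' f i []
          have h2 : f^[i + 1 + 1] [] = C.filter (p (f^[i + 1] [])) :=
            Function.iterate_succ_apply' f (i + 1) []
          have h3 : (C.filter (p (f^[i] []))).Sublist (C.filter (p (f^[i + 1] []))) := by
            refine List.monotone_filter_right C ?_
            intro x hx
            exact hp _ _ (hmono i) x hx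
          have e1 := congrArg List.length h1
          have e2 := congrArg List.length h2
          exact h2.trans ((h3.eq_of_length_le (by omega)).symm.trans h1.symm)
  rcases hlen C.length with h | h
  · rw [← Function.iterate_succ_apply' f]; exact h
  · exfalso
    have h2 : f^[C.length + 1] [] = C.filter (p (f^[C.length] [])) :=
      Function.iterate_succ_apply' f C.length []
    rw [h2] at h
    have := List.length_filter_le (p (f^[C.length] [])) C
    omega

lemma good_mono {k : ℕ} {w : List ℕ} {D D' : List (ℕ × (ℕ × ℕ))} (h : ∀ x ∈ D, x ∈ D')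
    {p s q : ℕ} (hg : good k w D p s q = true) : good k w D' p s q = true := by
  unfold good at hg ⊢
  split_ifs at hg ⊢ with hs
  · exact hg
  · simpa using h _ (by simpa using hg)

lemma foldl_mono {k : ℕ} {w : List ℕ} {D D' : List (ℕ × (ℕ × ℕ))} (h : ∀ x ∈ D, x ∈ D')
    (α : List ℕ) : ∀ I I' : List ℕ, (∀ p ∈ I, p ∈ I') → ∀ q ∈ α.foldl (step1 k w D) I,
      q ∈ α.foldl (step1 k w D') I' := by
  induction α with
  | nil => intro I I' hI q hq; exact hI q hq
  | cons s α ih =>
    intro I I' hI q hq
    rw [List.foldl_cons] at hq ⊢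
    refine ih _ _ ?_ q hq
    intro q hq
    unfold step1 at hq ⊢
    rw [List.mem_filter] at hq ⊢
    refine ⟨hq.1, ?_⟩
    have h2 := hq.2
    rw [List.any_eq_true] at h2 ⊢
    obtain ⟨p, hp, hp2⟩ := h2
    exact ⟨p, hI p hp, good_mono h hp2⟩

lemma DD_closed (k : ℕ) (g : List (ℕ × List ℕ)) (w : List ℕ) :
    round k g w (DD k g w) = DD k g w := by
  refine iterate_filter_closed (triples g w) (fun D t => g.any fun r =>
    decide (r.1 = t.1) && decide (t.2.2 ∈ reach k w D t.2.1 r.2)) ?_
  intro D D' hD t ht
  rw [List.any_eq_true] at ht ⊢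
  obtain ⟨r, hr, hr2⟩ := ht
  refine ⟨r, hr, ?_⟩
  rw [Bool.and_eq_true, decide_eq_true_eq, decide_eq_true_eq] at hr2 ⊢
  exact ⟨hr2.1, foldl_mono hD _ _ _ (fun p hp => hp) _ hr2.2⟩

/-! ### Completeness -/

lemma mem_triples {g : List (ℕ × List ℕ)} {w : List ℕ} {a : ℕ × List ℕ} (ha : a ∈ g) {i j : ℕ}
    (hi : i ≤ w.length) (hj : j ≤ w.length) : (a.1, (i, j)) ∈ triples g w := by
  unfold triples
  rw [List.mem_flatMap]
  refine ⟨a, ha, ?_⟩
  rw [List.mem_flatMap]
  refine ⟨i, List.mem_range.2 (by omega), ?_⟩
  rw [List.mem_map]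
  exact ⟨j, List.mem_range.2 (by omega), rfl⟩

lemma complete {k : ℕ} {g : List (ℕ × List ℕ)} {w : List (Fin k)}
    {β : List (Symbol (Fin k) (toCFG k g).NT)} {u : List (Fin k)} (h : DerG (toCFG k g) β u) :
    ∀ (α : List ℕ) (x y : List (Fin k)) (I : List ℕ), β = α.map (sym k) → w = x ++ u ++ y →
      x.length ∈ I → x.length + u.length ∈
        α.foldl (step1 k (w.map Fin.val) (DD k g (w.map Fin.val))) I := by
  induction h with
  | nil =>
    intro α x y I h _ hI
    rw [List.map_eq_nil_iff.1 h.symm]
    simpa using hI
  | @term a β u _ ih =>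
    intro α x y I h hw hI
    cases α with
    | nil => simp at h
    | cons s α =>
      obtain ⟨hs, h⟩ := List.cons.inj h
      have hsk : s < k ∧ s = (a : ℕ) := by
        exact sym_terminal hs.symm
      rw [List.foldl_cons]
      have hw' : w = (x ++ [a]) ++ u ++ y := by rw [hw]; simp
      have := ih α (x ++ [a]) y (step1 k (w.map Fin.val) (DD k g (w.map Fin.val)) I s) h hw' (by
        unfold step1
        rw [List.mem_filter]
        refine ⟨?_, ?_⟩
        · rw [List.mem_range, hw, List.length_map]
          simp only [List.length_append, List.length_cons, List.length_nil]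
          omega
        · rw [List.any_eq_true]
          refine ⟨x.length, hI, ?_⟩
          unfold good
          rw [if_pos hsk.1, Bool.and_eq_true, decide_eq_true_eq, decide_eq_true_eq]
          refine ⟨by simp, ?_⟩
          rw [hw]
          simp [hsk.2])
      rw [List.length_append, List.length_singleton] at this
      rw [List.length_cons]
      have e : x.length + (u.length + 1) = x.length + 1 + u.length := by omega
      rw [e]
      exact this
  | @nt r hr β u v _ _ ih1 ih2 =>
    intro α x y I h hw hI
    obtain ⟨b, hb, rfl⟩ := mem_rules.1 hr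
    cases α with
    | nil => simp at h
    | cons s α =>
      obtain ⟨hs, h⟩ := List.cons.inj h
      have hsk : ¬ s < k ∧ s - k = b.1 := by
        exact sym_nonterminal hs.symm
      have hw1 : w = x ++ u ++ (v ++ y) := by rw [hw]; simp
      have h1 := ih1 b.2 x (v ++ y) [x.length] rfl hw1 (by simp)
      have hlen : x.length + u.length ≤ (w.map Fin.val).length := by
        rw [List.length_map, hw]
        simp only [List.length_append]
        omega
      have hD : (s - k, (x.length, x.length + u.length)) ∈ DD k g (w.map Fin.val) := by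
        rw [← DD_closed]
        unfold round
        rw [List.mem_filter, hsk.2]
        refine ⟨mem_triples hb (by omega) hlen, ?_⟩
        rw [List.any_eq_true]
        refine ⟨b, hb, ?_⟩
        rw [Bool.and_eq_true, decide_eq_true_eq, decide_eq_true_eq]
        exact ⟨rfl, h1⟩
      rw [List.foldl_cons]
      have hw2 : w = (x ++ u) ++ v ++ y := by rw [hw]; simp
      have h2 := ih2 α (x ++ u) y (step1 k (w.map Fin.val) (DD k g (w.map Fin.val)) I s) h hw2 (by
        unfold step1
        rw [List.mem_filter, List.length_append]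
        refine ⟨List.mem_range.2 (by omega), ?_⟩
        rw [List.any_eq_true]
        refine ⟨x.length, hI, ?_⟩
        unfold good
        rw [if_neg hsk.1]
        simpa using hD)
      rw [List.length_append] at h2 ⊢
      rw [← add_assoc]
      exact h2

/-! ### Soundness -/

/-- All triples of `D` are derivations of parts of `w`. -/
def Sound (k : ℕ) (g : List (ℕ × List ℕ)) (w : List (Fin k)) (D : List (ℕ × (ℕ × ℕ))) : Prop :=
  ∀ A i j, (A, (i, j)) ∈ D → ∃ x u y, w = x ++ u ++ y ∧ x.length = i ∧ j = i + u.length ∧
    DerG (toCFG k g) [nonterminal A] u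

lemma sound_foldl {k : ℕ} {g : List (ℕ × List ℕ)} {w : List (Fin k)}
    {D : List (ℕ × (ℕ × ℕ))} (hD : Sound k g w D) (α : List ℕ) :
    ∀ I : List ℕ, (∀ p ∈ I, p ≤ w.length) → ∀ q ∈ α.foldl (step1 k (w.map Fin.val) D) I,
      ∃ p ∈ I, ∃ x u y, w = x ++ u ++ y ∧ x.length = p ∧ q = p + u.length ∧
        DerG (toCFG k g) (α.map (sym k)) u := by
  induction α with
  | nil =>
    intro I hI q hq
    refine ⟨q, hq, w.take q, [], w.drop q, by simp, ?_, by simp, DerG.nil⟩
    rw [List.length_take]
    exact min_eq_left (hI q hq)
  | cons s α ih =>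
    intro I hI q hq
    rw [List.foldl_cons] at hq
    obtain ⟨p', hp', x', u', y', hw', hx', hq', hder⟩ := ih _ (by
      intro p hp
      unfold step1 at hp
      rw [List.mem_filter, List.mem_range, List.length_map] at hp
      omega) q hq
    unfold step1 at hp'
    rw [List.mem_filter, List.any_eq_true] at hp'
    obtain ⟨hp1, p, hpI, hgood⟩ := hp'
    refine ⟨p, hpI, ?_⟩
    unfold good at hgood
    split_ifs at hgood with hs
    · rw [Bool.and_eq_true, decide_eq_true_eq, decide_eq_true_eq] at hgood
      obtain ⟨h1, h2⟩ := hgood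
      rw [List.getElem?_map, Option.map_eq_some_iff] at h2
      obtain ⟨a, ha, ha2⟩ := h2
      have hxa : x' = x'.take p ++ [a] := by
        have hlt : p < x'.length := by omega
        have h3 : w[p]? = some x'[p] := by
          rw [hw', List.append_assoc, List.getElem?_append_left hlt, List.getElem?_eq_getElem hlt]
        rw [h3, Option.some.injEq] at ha
        rw [← ha]
        have h4 : x'.take p ++ [x'[p]] = x'.take (p + 1) := by
          rw [List.take_add_one, List.getElem?_eq_getElem hlt]
          rfl
        rw [h4, ← h1, ← hx', List.take_length]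
      refine ⟨x'.take p, a :: u', y', ?_, ?_, ?_, ?_⟩
      · conv_lhs => rw [hw', hxa]
        simp
      · rw [List.length_take]
        omega
      · rw [List.length_cons, hq', h1]; omega
      · rw [List.map_cons]
        have : sym k s = terminal a := by
          unfold sym
          rw [dif_pos hs]
          congr 1
          exact Fin.ext ha2.symm
        rw [this]
        exact DerG.term a hder
    · rw [decide_eq_true_eq] at hgood
      obtain ⟨x, u, y, hw, hx, hp2, hder2⟩ := hD _ _ _ hgood
      have hxx : x ++ u = x' := by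
        have e1 : w = (x ++ u) ++ y := hw
        have e2 : w = x' ++ (u' ++ y') := by rw [hw']; simp
        have e3 : (x ++ u) ++ y = x' ++ (u' ++ y') := e1.symm.trans e2
        exact (List.append_inj e3 (by rw [List.length_append]; omega)).1
      refine ⟨x, u ++ u', y', ?_, hx, ?_, ?_⟩
      · rw [hw', ← hxx]; simp
      · rw [List.length_append]; omega
      · rw [List.map_cons]
        have : sym k s = nonterminal (s - k) := by
          unfold sym
          rw [dif_neg hs]
        rw [this]
        exact hder2.append hder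

lemma sound_round {k : ℕ} {g : List (ℕ × List ℕ)} {w : List (Fin k)}
    {D : List (ℕ × (ℕ × ℕ))} (hD : Sound k g w D) :
    Sound k g w (round k g (w.map Fin.val) D) := by
  intro A i j h
  unfold round at h
  rw [List.mem_filter, List.any_eq_true] at h
  obtain ⟨h1, r, hr, h2⟩ := h
  rw [Bool.and_eq_true, decide_eq_true_eq, decide_eq_true_eq] at h2
  obtain ⟨h3, h4⟩ := h2
  have hi : i ≤ w.length := by
    unfold triples at h1
    rw [List.mem_flatMap] at h1
    obtain ⟨r', _, h1⟩ := h1
    rw [List.mem_flatMap] at h1
    obtain ⟨i', hi', h1⟩ := h1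
    rw [List.mem_map] at h1
    obtain ⟨j', _, h1⟩ := h1
    simp only [Prod.mk.injEq] at h1
    rw [List.mem_range, List.length_map] at hi'
    omega
  obtain ⟨p, hp, x, u, y, hw, hx, hj, hder⟩ := sound_foldl hD r.2 [i] (by simpa using hi) j h4
  rw [List.mem_singleton] at hp
  subst hp
  refine ⟨x, u, y, hw, hx, hj, ?_⟩
  have hrule : (⟨r.1, r.2.map (sym k)⟩ : ContextFreeRule (Fin k) ℕ) ∈ (toCFG k g).rules :=
    mem_rules.2 ⟨r, hr, rfl⟩
  have := DerG.nt (G := toCFG k g) _ hrule hder DerG.nil
  rw [List.append_nil] at this
  simp only at h3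
  rw [← h3]
  exact this

lemma sound_DD {k : ℕ} (g : List (ℕ × List ℕ)) (w : List (Fin k)) :
    Sound k g w (DD k g (w.map Fin.val)) := by
  unfold DD
  generalize (triples g (w.map Fin.val)).length = m
  induction m with
  | zero => intro A i j h; simp at h
  | succ m ih =>
    rw [Function.iterate_succ_apply']
    exact sound_round ih

/-- The membership test is correct. -/
theorem mem_iff (k : ℕ) (g : List (ℕ × List ℕ)) (w : List (Fin k)) :
    mem k g (w.map Fin.val) = true ↔ w ∈ (toCFG k g).language := by
  rw [mem_language_iff_derG]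
  unfold mem
  rw [decide_eq_true_eq, List.length_map]
  constructor
  · intro h
    obtain ⟨x, u, y, hw, hx, hj, hder⟩ := sound_DD g w 0 0 w.length h
    have hu : u = w := by
      have h1 : x = [] := List.length_eq_zero_iff.1 hx
      have h2 : y = [] := by
        apply List.length_eq_zero_iff.1
        have := congrArg List.length hw
        rw [List.length_append, List.length_append] at this
        omega
      rw [h1, h2] at hw
      simpa using hw.symm
    rw [hu] at hder
    exact hder
  · intro h
    obtain ⟨r, hr, hr0, hu⟩ := h.nt_inv rfl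
    obtain ⟨b, hb, hb2⟩ := mem_rules.1 hr
    have h2 := complete (w := w) hu b.2 [] [] [0] (by rw [hb2]) (by simp) (by simp)
    rw [← DD_closed]
    unfold round
    rw [List.mem_filter]
    have hb0 : b.1 = 0 := by
      rw [hb2] at hr0
      exact hr0
    refine ⟨?_, ?_⟩
    · have := mem_triples (w := w.map Fin.val) hb (i := 0) (j := w.length) (by omega)
        (by rw [List.length_map])
      rw [hb0] at this
      exact this
    · rw [List.any_eq_true]
      refine ⟨b, hb, ?_⟩
      rw [Bool.and_eq_true, decide_eq_true_eq, decide_eq_true_eq]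
      refine ⟨hb0, ?_⟩
      simpa [reach] using h2

end Pool.Agent.Work.MP_35a6f4_lc
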