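import Mathlib

/-!
Teaching sets without clashes for a sequence of concepts `c 0, c 1, …`, obtained by halving.
`c l x` says whether the `x`-th object belongs to the `l`-th concept.
-/

namespace Pool.Agent.Work.MP_35a6f4_lc

section Teach

variable (c : ℕ → ℕ → Bool)

/-- Concept `l` is consistent with the labelled examples `T`. -/
def cons (T : List (ℕ × Bool)) (l : ℕ) : Bool := T.all fun p => c l p.1 == p.2

/-- The least power of two above `l`. -/
def thr (l : ℕ) : ℕ := 2 ^ Nat.size l

/-- The concepts with index below `N` consistent with `T`. -/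
def cand (N : ℕ) (T : List (ℕ × Bool)) : List ℕ := (List.range N).filter (cons c T)

/-- Majority vote on `x`. -/
def maj (N : ℕ) (T : List (ℕ × Bool)) (x : ℕ) : Bool :=
  decide ((cand c N T).length ≤ 2 * ((cand c N T).filter fun l => c l x).length)

/-- The predicted label of `x`. -/
def vote (n : ℕ) (T : List (ℕ × Bool)) (x : ℕ) : Bool :=
  (((List.range n).find? (cons c T)).map fun l0 => maj c (thr l0) T x).getD false

/-- The first object on which concept `l` differs from the prediction. -/
def nxt (n l : ℕ) (T : List (ℕ × Bool)) : Option ℕ :=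
  (List.range n).find? fun x => !(c l x == vote c n T x)

/-- Add the first example that is mispredicted. -/
def stp (n l : ℕ) (T : List (ℕ × Bool)) : List (ℕ × Bool) :=
  ((nxt c n l T).map fun x => (x, c l x) :: T).getD T

/-- The teaching set of concept `l`, with all searches bounded by `n`. -/
def Tn (n l : ℕ) : List (ℕ × Bool) := (stp c n l)^[n] []

variable {c}

lemma stp_some {n l x : ℕ} {T : List (ℕ × Bool)} (h : nxt c n l T = some x) :
    stp c n l T = (x, c l x) :: T := by simp [stp, h]

lemma stp_none {n l : ℕ} {T : List (ℕ × Bool)} (h : nxt c n l T = none) :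
    stp c n l T = T := by simp [stp, h]

lemma nxt_some {n l x : ℕ} {T : List (ℕ × Bool)} (h : nxt c n l T = some x) :
    x < n ∧ c l x ≠ vote c n T x ∧ ∀ y < x, c l y = vote c n T y := by
  unfold nxt at h
  rw [List.find?_range_eq_some] at h
  obtain ⟨h1, h2, h3⟩ := h
  refine ⟨List.mem_range.1 h2, by simpa using h1, fun y hy => ?_⟩
  simpa using h3 y hy

lemma nxt_none {n l : ℕ} {T : List (ℕ × Bool)} (h : nxt c n l T = none) :
    ∀ y < n, c l y = vote c n T y := by
  intro y hy
  unfold nxt at h
  rw [List.find?_eq_none] at h
  simpa using h y (List.mem_range.2 hy)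

lemma nxt_eq_some {n l x : ℕ} {T : List (ℕ × Bool)} (h1 : x < n) (h2 : c l x ≠ vote c n T x)
    (h3 : ∀ y < x, c l y = vote c n T y) : nxt c n l T = some x := by
  unfold nxt
  rw [List.find?_range_eq_some]
  exact ⟨by simpa using h2, List.mem_range.2 h1, fun y hy => by simpa using h3 y hy⟩

lemma nxt_eq_none {n l : ℕ} {T : List (ℕ × Bool)} (h : ∀ y < n, c l y = vote c n T y) :
    nxt c n l T = none := by
  unfold nxt
  rw [List.find?_eq_none]
  intro y hy
  simpa using h y (List.mem_range.1 hy)

lemma mem_iter_succ {n l i : ℕ} {p : ℕ × Bool} (h : p ∈ (stp c n l)^[i] []) :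
    p ∈ (stp c n l)^[i + 1] [] := by
  rw [Function.iterate_succ_apply']
  rcases hn : nxt c n l ((stp c n l)^[i] []) with _ | x
  · rw [stp_none hn]; exact h
  · rw [stp_some hn]; exact List.mem_cons_of_mem _ h

lemma mem_iter_le {n l i j : ℕ} (hij : i ≤ j) {p : ℕ × Bool} (h : p ∈ (stp c n l)^[i] []) :
    p ∈ (stp c n l)^[j] [] := by
  induction j, hij using Nat.le_induction with
  | base => exact h
  | succ j _ ih => exact mem_iter_succ ih

/-- All examples are labelled by concept `l`. -/
lemma iter_label {n l : ℕ} (i : ℕ) : ∀ p ∈ (stp c n l)^[i] [], p.1 < n ∧ p.2 = c l p.1 := by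
  induction i with
  | zero => intro p hp; simp at hp
  | succ i ih =>
    intro p hp
    rw [Function.iterate_succ_apply'] at hp
    rcases hn : nxt c n l ((stp c n l)^[i] []) with _ | x
    · rw [stp_none hn] at hp; exact ih p hp
    · rw [stp_some hn, List.mem_cons] at hp
      rcases hp with rfl | hp
      · exact ⟨(nxt_some hn).1, rfl⟩
      · exact ih p hp

lemma iter_cons {n l : ℕ} (i : ℕ) : cons c ((stp c n l)^[i] []) l = true := by
  unfold cons
  rw [List.all_eq_true]
  intro p hp
  simp [(iter_label i p hp).2]

/-! ### The potential -/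

/-- The potential function. -/
def pot (c : ℕ → ℕ → Bool) (s : ℕ) (T : List (ℕ × Bool)) : ℕ :=
  ∑ j ∈ Finset.range (s + 1), Nat.size (cand c (2 ^ j) T).length

lemma cand_cons (N x : ℕ) (b : Bool) (T : List (ℕ × Bool)) :
    cand c N ((x, b) :: T) = (cand c N T).filter fun l => c l x == b := by
  unfold cand
  rw [List.filter_filter]
  congr 1

lemma find_vote {n l : ℕ} {T : List (ℕ × Bool)} (hl : l < n) (hc : cons c T l = true) :
    ∃ l0, l0 ≤ l ∧ cons c T l0 = true ∧ (List.range n).find? (cons c T) = some l0 ∧
      ∀ x, vote c n T x = maj c (thr l0) T x := by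
  rcases h : (List.range n).find? (cons c T) with _ | l0
  · rw [List.find?_eq_none] at h
    exact absurd hc (h l (List.mem_range.2 hl))
  · have h' := h
    rw [List.find?_range_eq_some] at h'
    obtain ⟨h1, h2, h3⟩ := h'
    refine ⟨l0, ?_, h1, rfl, fun x => by simp [vote, h]⟩
    by_contra hcon
    push Not at hcon
    have := h3 l hcon
    rw [hc] at this
    simp at this

lemma half_size {m m' : ℕ} (hm : 1 ≤ m) (h : 2 * m' ≤ m) : Nat.size m' + 1 ≤ Nat.size m := by
  have h1 : 0 < Nat.size m := Nat.size_pos.2 hm
  have h2 : m < 2 ^ Nat.size m := Nat.lt_size_self m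
  have h3 : m' < 2 ^ (Nat.size m - 1) := by
    have : 2 ^ Nat.size m = 2 * 2 ^ (Nat.size m - 1) := by
      rw [← pow_succ']
      congr 1
      omega
    omega
  have h4 := Nat.size_le.2 h3
  omega

lemma pot_lt {n l x : ℕ} {T : List (ℕ × Bool)} (hl : l < n) (hc : cons c T l = true)
    (hx : c l x ≠ vote c n T x) :
    pot c (Nat.size l) ((x, c l x) :: T) + 1 ≤ pot c (Nat.size l) T := by
  obtain ⟨l0, h1, h2, -, h4⟩ := find_vote hl hc
  rw [h4] at hx
  unfold pot
  have hj : Nat.size l0 ∈ Finset.range (Nat.size l + 1) := by
    rw [Finset.mem_range]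
    exact Nat.lt_succ_of_le (Nat.size_le_size h1)
  rw [← Finset.add_sum_erase _ _ hj, ← Finset.add_sum_erase _ _ hj]
  have hrest : ∑ j ∈ (Finset.range (Nat.size l + 1)).erase (Nat.size l0),
      Nat.size (cand c (2 ^ j) ((x, c l x) :: T)).length ≤
      ∑ j ∈ (Finset.range (Nat.size l + 1)).erase (Nat.size l0),
      Nat.size (cand c (2 ^ j) T).length := by
    refine Finset.sum_le_sum fun j _ => ?_
    rw [cand_cons]
    exact Nat.size_le_size (List.length_filter_le _ _)
  have hmain : Nat.size (cand c (2 ^ Nat.size l0) ((x, c l x) :: T)).length + 1 ≤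
      Nat.size (cand c (2 ^ Nat.size l0) T).length := by
    have hpos : 1 ≤ (cand c (2 ^ Nat.size l0) T).length := by
      rw [Nat.succ_le_iff, List.length_pos_iff_exists_mem]
      refine ⟨l0, ?_⟩
      unfold cand
      rw [List.mem_filter]
      exact ⟨List.mem_range.2 (Nat.lt_size_self l0), h2⟩
    apply half_size hpos
    rw [cand_cons]
    unfold maj thr at hx
    set L := cand c (2 ^ Nat.size l0) T with hL
    have hsplit : L.length = (L.filter fun l => c l x).length +
        (L.filter fun l => !c l x).length := by
      have := List.length_eq_length_filter_add (l := L) (fun l => c l x)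
      exact this
    rcases hb : c l x with _ | _
    · rw [hb] at hx
      have h5 : L.length ≤ 2 * (L.filter fun l => c l x).length := by
        by_contra hcon
        exact hx (decide_eq_false hcon).symm
      have h6 : (L.filter fun l => c l x == false) = L.filter fun l => !c l x := by
        congr 1
        funext y
        cases c y x <;> rfl
      rw [h6]
      omega
    · rw [hb] at hx
      have h5 : ¬ L.length ≤ 2 * (L.filter fun l => c l x).length := by
        intro hcon
        exact hx (decide_eq_true hcon).symm
      have h6 : (L.filter fun l => c l x == true) = L.filter fun l => c l x := by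
        congr 1
        funext y
        cases c y x <;> rfl
      rw [h6]
      omega
  omega

/-- The bound on the size of the teaching sets. -/
def bnd (s : ℕ) : ℕ := ∑ j ∈ Finset.range (s + 1), (j + 1)

lemma pot_nil (s : ℕ) : pot c s [] ≤ bnd s := by
  unfold pot bnd
  refine Finset.sum_le_sum fun j _ => ?_
  rw [Nat.size_le]
  have : (cand c (2 ^ j) []).length ≤ 2 ^ j := by
    unfold cand
    refine (List.length_filter_le _ _).trans ?_
    rw [List.length_range]
  exact this.trans_lt (Nat.pow_lt_pow_right (by norm_num) (Nat.lt_succ_self j))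

lemma bnd_le (s : ℕ) : bnd s ≤ (s + 1) ^ 2 := by
  unfold bnd
  have : ∀ j ∈ Finset.range (s + 1), j + 1 ≤ s + 1 := fun j hj => by
    rw [Finset.mem_range] at hj; omega
  refine (Finset.sum_le_card_nsmul _ _ _ this).trans ?_
  rw [Finset.card_range, smul_eq_mul, pow_two]

lemma bnd_mono {s s' : ℕ} (h : s ≤ s') : bnd s ≤ bnd s' :=
  Finset.sum_le_sum_of_subset (fun j hj => by
    rw [Finset.mem_range] at hj ⊢; omega)

lemma iter_length {n l : ℕ} (hl : l < n) (i : ℕ) :
    ((stp c n l)^[i] []).length + pot c (Nat.size l) ((stp c n l)^[i] []) ≤ bnd (Nat.size l) := by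
  induction i with
  | zero => simpa using pot_nil (c := c) (Nat.size l)
  | succ i ih =>
    rw [Function.iterate_succ_apply']
    rcases hn : nxt c n l ((stp c n l)^[i] []) with _ | x
    · rw [stp_none hn]; exact ih
    · rw [stp_some hn]
      have := pot_lt hl (iter_cons i) (nxt_some hn).2.1
      rw [List.length_cons]
      omega

/-- Within `bnd + 1` steps the process stops. -/
lemma exists_stop {n l : ℕ} (hl : l < n) :
    ∃ i, i ≤ bnd (Nat.size l) ∧ nxt c n l ((stp c n l)^[i] []) = none := by
  by_contra hcon
  push Not at hcon
  have key : ∀ i, i ≤ bnd (Nat.size l) + 1 → ((stp c n l)^[i] []).length = i := by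
    intro i
    induction i with
    | zero => intro _; rfl
    | succ i ih =>
      intro hi
      have h1 := ih (by omega)
      rcases hn : nxt c n l ((stp c n l)^[i] []) with _ | x
      · exact absurd hn (hcon i (by omega))
      · rw [Function.iterate_succ_apply', stp_some hn, List.length_cons, h1]
  have h1 := key _ le_rfl
  have h2 := iter_length (c := c) hl (bnd (Nat.size l) + 1)
  omega

lemma iter_stable {n l i : ℕ} (h : nxt c n l ((stp c n l)^[i] []) = none) :
    ∀ j, i ≤ j → (stp c n l)^[j] [] = (stp c n l)^[i] [] := by
  intro j hj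
  induction j, hj using Nat.le_induction with
  | base => rfl
  | succ j _ ih =>
    rw [Function.iterate_succ_apply', ih, stp_none h]

/-- No clash: two concepts that differ below `n` cannot both be consistent with the teaching set
of the other one. -/
theorem no_clash {n l t : ℕ} (ht : t < n) (hb : bnd (Nat.size t) < n)
    (hdiff : ∃ x < n, c l x ≠ c t x)
    (h1 : ∀ p ∈ Tn c n l, c t p.1 = p.2) (h2 : ∀ p ∈ Tn c n t, c l p.1 = p.2) : False := by
  have key : ∀ i, i ≤ n → (stp c n l)^[i] [] = (stp c n t)^[i] [] := by
    intro i
    induction i with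
    | zero => intro _; rfl
    | succ i ih =>
      intro hi
      have he := ih (by omega)
      have hl' : ∀ x, nxt c n l ((stp c n t)^[i] []) = some x →
          c t x = c l x := by
        intro x hx
        rw [← he] at hx
        have hmem : (x, c l x) ∈ Tn c n l := by
          refine mem_iter_le (i := i + 1) hi ?_
          rw [Function.iterate_succ_apply', stp_some hx]
          exact List.mem_cons_self
        exact h1 _ hmem
      have ht' : ∀ x, nxt c n t ((stp c n t)^[i] []) = some x → c l x = c t x := by
        intro x hx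
        have hmem : (x, c t x) ∈ Tn c n t := by
          refine mem_iter_le (i := i + 1) hi ?_
          rw [Function.iterate_succ_apply', stp_some hx]
          exact List.mem_cons_self
        exact h2 _ hmem
      rw [Function.iterate_succ_apply', Function.iterate_succ_apply', he]
      set T := (stp c n t)^[i] [] with hT
      rcases hn1 : nxt c n l T with _ | x
      · rcases hn2 : nxt c n t T with _ | y
        · rw [stp_none hn1, stp_none hn2]
        · exfalso
          have e := ht' y hn2
          have h3 := nxt_some hn2
          exact h3.2.1 (by rw [← e]; exact nxt_none hn1 y h3.1)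
      · rcases hn2 : nxt c n t T with _ | y
        · exfalso
          have e := hl' x hn1
          have h3 := nxt_some hn1
          exact h3.2.1 (by rw [← e]; exact nxt_none hn2 x h3.1)
        · have e1 := hl' x hn1
          have e2 := ht' y hn2
          have h3 := nxt_some hn1
          have h4 := nxt_some hn2
          have hxy : x = y := by
            rcases lt_trichotomy x y with h | h | h
            · exfalso
              apply h3.2.1
              rw [← e1]
              exact h4.2.2 x h
            · exact h
            · exfalso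
              apply h4.2.1
              rw [← e2]
              exact h3.2.2 y h
          subst hxy
          rw [stp_some hn1, stp_some hn2, e1]
  obtain ⟨i, hi, hstop⟩ := exists_stop (c := c) ht
  have hi1 : i + 1 ≤ n := by omega
  have he := key i (by omega)
  have he1 := key (i + 1) hi1
  have hstop' : nxt c n l ((stp c n t)^[i] []) = none := by
    rcases hn : nxt c n l ((stp c n t)^[i] []) with _ | x
    · rfl
    · exfalso
      rw [Function.iterate_succ_apply', Function.iterate_succ_apply', he, stp_some hn,
        stp_none hstop] at he1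
      exact absurd (congrArg List.length he1) (by simp)
  obtain ⟨x, hx, hne⟩ := hdiff
  exact hne ((nxt_none hstop' x hx).trans (nxt_none hstop x hx).symm)

lemma vote_stable {n n' l : ℕ} {T : List (ℕ × Bool)} (h : l < n) (h' : l < n')
    (hc : cons c T l = true) (x : ℕ) : vote c n T x = vote c n' T x := by
  obtain ⟨a, -, ha, haf, hav⟩ := find_vote h hc
  obtain ⟨b, -, hb, hbf, hbv⟩ := find_vote h' hc
  rw [List.find?_range_eq_some] at haf hbf
  have hab : a = b := by
    rcases lt_trichotomy a b with hlt | heq | hlt
    · have := hbf.2.2 a hlt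
      rw [ha] at this
      simp at this
    · exact heq
    · have := haf.2.2 b hlt
      rw [hb] at this
      simp at this
  rw [hav, hbv, hab]

/-- The teaching sets are eventually constant. -/
theorem Tn_eventually (t : ℕ) : ∃ (T : List (ℕ × Bool)) (n0 : ℕ), t < n0 ∧
    bnd (Nat.size t) < n0 ∧ T.length ≤ bnd (Nat.size t) ∧ (∀ p ∈ T, p.2 = c t p.1) ∧
    ∀ n, n0 ≤ n → Tn c n t = T := by
  have key : ∀ i, ∃ (T : List (ℕ × Bool)) (n0 : ℕ), t < n0 ∧
      ∀ n, n0 ≤ n → (stp c n t)^[i] [] = T := by
    intro i
    induction i with
    | zero => exact ⟨[], t + 1, Nat.lt_succ_self t, fun n _ => rfl⟩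
    | succ i ih =>
      obtain ⟨T, n0, hn0, hT⟩ := ih
      have hc : cons c T t = true := by
        rw [← hT n0 le_rfl]; exact iter_cons i
      by_cases hex : ∃ x, c t x ≠ vote c n0 T x
      · classical
        set x := Nat.find hex with hx
        refine ⟨(x, c t x) :: T, max n0 (x + 1), lt_of_lt_of_le hn0 (le_max_left _ _), ?_⟩
        intro n hn
        have h1 : n0 ≤ n := (le_max_left _ _).trans hn
        have h2 : x < n := (le_max_right n0 (x + 1)).trans hn
        rw [Function.iterate_succ_apply', hT n h1]
        refine stp_some (nxt_eq_some h2 ?_ ?_)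
        · rw [vote_stable (lt_of_lt_of_le hn0 h1) hn0 hc]
          exact Nat.find_spec hex
        · intro y hy
          rw [vote_stable (lt_of_lt_of_le hn0 h1) hn0 hc]
          have := Nat.find_min hex hy
          push Not at this
          exact this
      · push Not at hex
        refine ⟨T, n0, hn0, fun n hn => ?_⟩
        rw [Function.iterate_succ_apply', hT n hn]
        refine stp_none (nxt_eq_none fun y _ => ?_)
        rw [vote_stable (lt_of_lt_of_le hn0 hn) hn0 hc]
        exact hex y
  obtain ⟨T, n0, hn0, hT⟩ := key (bnd (Nat.size t))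
  refine ⟨T, max n0 (bnd (Nat.size t) + 1), lt_of_lt_of_le hn0 (le_max_left _ _),
    Nat.lt_of_succ_le (le_max_right _ _), ?_, ?_, ?_⟩
  · have := iter_length (c := c) hn0 (bnd (Nat.size t))
    rw [hT n0 le_rfl] at this
    omega
  · intro p hp
    rw [← hT n0 le_rfl] at hp
    exact (iter_label _ p hp).2
  · intro n hn
    have h1 : n0 ≤ n := (le_max_left _ _).trans hn
    have h2 : bnd (Nat.size t) + 1 ≤ n := (le_max_right n0 _).trans hn
    obtain ⟨i, hi, hstop⟩ := exists_stop (c := c) (lt_of_lt_of_le hn0 h1)
    have e1 := iter_stable hstop _ hi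
    have e2 := iter_stable hstop n (by omega)
    unfold Tn
    rw [e2, ← e1, hT n h1]

end Teach

end Pool.Agent.Work.MP_35a6f4_lc
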