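import Pool.Agent.Work.MP_35a6f4_lc.Enum
import Pool.Agent.Work.MP_35a6f4_lc.Teach

/-!
The teaching sets are computed in polynomial time (all numbers in unary).
-/

namespace Pool.Agent.Work.MP_35a6f4_lc

open Pool.Agent.PT

variable {A : Type} [Enc A]

/-- Membership of the `x`-th string in the language of the `l`-th grammar code. -/
def conc (k l x : ℕ) : Bool := mem k (gr l) (str k x)

@[fun_prop]
lemma ptf_conc {k : ℕ} {l x : A → ℕ} (hl : PTF l) (hx : PTF x) :
    PTF (fun a => conc k (l a) (x a)) := by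
  unfold conc
  fun_prop

@[fun_prop]
lemma ptf_cons {k : ℕ} {T : A → List (ℕ × Bool)} {l : A → ℕ} (hT : PTF T) (hl : PTF l) :
    PTF (fun a => cons (conc k) (T a) (l a)) := by
  unfold cons
  fun_prop

lemma thr_iter (l i : ℕ) : (fun m => if m ≤ l then 2 * m else m)^[i] 1 = 2 ^ min i (Nat.size l) := by
  induction i with
  | zero => simp
  | succ i ih =>
    rw [Function.iterate_succ_apply', ih]
    rcases Nat.lt_or_ge i (Nat.size l) with h | h
    · rw [min_eq_left h.le, min_eq_left (Nat.succ_le_of_lt h), if_pos (Nat.lt_size.1 h), pow_succ']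
    · rw [min_eq_right h, min_eq_right (h.trans (Nat.le_succ i)), if_neg]
      rw [not_le]
      exact Nat.lt_size_self l

lemma thr_le (l : ℕ) : thr l ≤ 2 * l + 1 := by
  unfold thr
  rcases h : Nat.size l with _ | s
  · simp
  · have : 2 ^ s ≤ l := Nat.lt_size.1 (by omega)
    rw [pow_succ]
    omega

@[fun_prop]
lemma ptf_thr {l : A → ℕ} (hl : PTF l) : PTF (fun a => thr (l a)) := by
  have key : PTF (fun l : ℕ => thr l) := by
    have h := PTF.nat_iterate (n := fun l : ℕ => l) (init := fun _ => 1)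
      (step := fun p : ℕ × ℕ => if p.2 ≤ p.1 then 2 * p.2 else p.2) PTF.id (PTF.const _)
      (by fun_prop) (fun l => 2 * sz l + 1) (((PB.const 2).mul PB.sz).add (PB.const 1))
      (fun l i _ => by
        have h1 := thr_iter l i
        have h2 : (fun s => if (l, s).2 ≤ (l, s).1 then 2 * (l, s).2 else (l, s).2)^[i] 1
            = 2 ^ min i (Nat.size l) := h1
        rw [h2, sz_nat, sz_nat]
        have h3 : 2 ^ min i (Nat.size l) ≤ 2 ^ Nat.size l :=
          Nat.pow_le_pow_right (by norm_num) (min_le_right _ _)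
        have h4 := thr_le l
        unfold thr at h4
        omega)
    refine h.congr fun l => ?_
    have h1 := thr_iter l l
    have h2 : Nat.size l ≤ l := Nat.size_le.2 Nat.lt_two_pow_self
    rw [min_eq_right h2] at h1
    exact h1
  exact key.comp hl

@[fun_prop]
lemma ptf_cand {k : ℕ} {N : A → ℕ} {T : A → List (ℕ × Bool)} (hN : PTF N) (hT : PTF T) :
    PTF (fun a => cand (conc k) (N a) (T a)) := by
  unfold cand
  refine PTF.filter' ?_ (by fun_prop)
  fun_prop

@[fun_prop]
lemma ptf_maj {k : ℕ} {N : A → ℕ} {T : A → List (ℕ × Bool)} {x : A → ℕ} (hN : PTF N)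
    (hT : PTF T) (hx : PTF x) : PTF (fun a => maj (conc k) (N a) (T a) (x a)) := by
  unfold maj
  refine PTF.le (by fun_prop) ?_
  refine PTF.mul (by fun_prop) ?_
  refine PTF.length ?_
  refine PTF.filter' ?_ (by fun_prop)
  fun_prop

@[fun_prop]
lemma ptf_vote {k : ℕ} {n : A → ℕ} {T : A → List (ℕ × Bool)} {x : A → ℕ} (hn : PTF n)
    (hT : PTF T) (hx : PTF x) : PTF (fun a => vote (conc k) (n a) (T a) (x a)) := by
  unfold vote
  refine PTF.optionGetD ?_ (by fun_prop)
  refine PTF.optionMap' ?_ ?_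
  · fun_prop
  · refine PTF.find' ?_ (by fun_prop)
    fun_prop

@[fun_prop]
lemma ptf_nxt {k : ℕ} {n l : A → ℕ} {T : A → List (ℕ × Bool)} (hn : PTF n) (hl : PTF l)
    (hT : PTF T) : PTF (fun a => nxt (conc k) (n a) (l a) (T a)) := by
  unfold nxt
  refine PTF.find' ?_ (by fun_prop)
  fun_prop

@[fun_prop]
lemma ptf_stp {k : ℕ} {n l : A → ℕ} {T : A → List (ℕ × Bool)} (hn : PTF n) (hl : PTF l)
    (hT : PTF T) : PTF (fun a => stp (conc k) (n a) (l a) (T a)) := by
  unfold stp
  refine PTF.optionGetD ?_ hT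
  refine PTF.optionMap' ?_ (by fun_prop)
  fun_prop

@[fun_prop]
lemma ptf_Tn {k : ℕ} {n l : A → ℕ} (hn : PTF n) (hl : PTF l) :
    PTF (fun a => Tn (conc k) (n a) (l a)) := by
  unfold Tn
  refine PTF.nat_iterate_add (n := n) (init := fun _ => [])
    (step := fun p : A × List (ℕ × Bool) => stp (conc k) (n p.1) (l p.1) p.2) hn (PTF.const _)
    (by fun_prop) (fun a => 2 * sz (n a) + 6) (((PB.const 2).mul hn.size).add (PB.const 6)) ?_
  intro a T
  show sz (stp (conc k) (n a) (l a) T) ≤ _
  rcases h : nxt (conc k) (n a) (l a) T with _ | x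
  · rw [stp_none h]; omega
  · rw [stp_some h, sz_cons, sz_pair, sz_nat, sz_nat]
    have h1 := (nxt_some h).1
    have h2 := sz_bool (conc k (l a) x)
    omega

end Pool.Agent.Work.MP_35a6f4_lc
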